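import Mathlib

/-!
# The iteration: conditions, and their order
-/

set_option autoImplicit false
set_option linter.unusedSectionVars false

namespace Pool.Agent.H631.ED

open Classical

/-- the sequences of length `n` with values below `G` -/
noncomputable def stems (G : ℕ → ℕ) (n : ℕ) : Finset (List ℕ) :=
  (Fintype.piFinset fun i : Fin n => Finset.range (G i)).image List.ofFn

theorem mem_stems {G : ℕ → ℕ} {n : ℕ} {s : List ℕ} (hs : s.length = n)
    (h : ∀ i < n, s.getD i 0 < G i) : s ∈ stems G n := by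
  refine Finset.mem_image.2 ⟨fun i => s.getD i 0, ?_, ?_⟩
  · rw [Fintype.mem_piFinset]
    exact fun i => Finset.mem_range.2 (h i i.2)
  · apply List.ext_getElem
    · simp [hs]
    · intro i h1 h2
      rw [List.getElem_ofFn]
      exact List.getD_eq_getElem _ _ h2

/-- the data: the bound `G`; codes `z < Z k n` of level `k` at `n`; `hit k n a z` says that the
number `a` hits what is coded by `z` -/
structure Hit where
  G : ℕ → ℕ
  mono : Monotone G
  Z : ℕ → ℕ → ℕ
  hit : ℕ → ℕ → ℕ → ℕ → Prop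
  Zpos : ∀ k n, 0 < Z k n
  Zlt : ∀ k n, k ≤ n → n * Z k n < G n
  comb : ∀ k n, k < n → ∀ z : List ℕ → ℕ, (∀ σ, z σ < Z k n) → ∃ w < Z (k + 1) n,
    ∀ a, hit (k + 1) n a w → ∀ σ ∈ stems G n, hit k n a (z σ)
  ex : ∀ k n, k ≤ n → ∀ z < Z k n, ∃ a, hit k n a z

theorem Hit.pos (H : Hit) (n : ℕ) : 0 < H.G n :=
  lt_of_lt_of_le (lt_of_le_of_lt (Nat.zero_le _) (H.Zlt 0 0 le_rfl)) (H.mono (Nat.zero_le n))

theorem Hit.lt (H : Hit) (n : ℕ) : n < H.G n :=
  lt_of_le_of_lt (Nat.le_mul_of_pos_right n (H.Zpos 0 n)) (H.Zlt 0 n (Nat.zero_le n))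

/-- the coordinates: `ed t` eventually different functions, `cc c` Cohen functions -/
inductive Ix (T C : Type) : Type
  | ed (t : T) : Ix T C
  | cc (c : C) : Ix T C

/-- the part of a condition at one coordinate: a finite sequence of numbers, and finitely
many promises -/
structure CV (M : Type) : Type where
  stem : List ℕ
  pr : Finset M

variable {H : Hit} {M T C : Type}

/-- the trivial part -/
def CV.top : CV M := ⟨[], ∅⟩

@[simp] theorem CV.top_stem : (CV.top : CV M).stem = [] := rfl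
@[simp] theorem CV.top_pr : (CV.top : CV M).pr = ∅ := rfl

/-- the number of promises and the values are bounded, and there are no promises at the Cohen
coordinates -/
def Legit (H : Hit) (i : Ix T C) (v : CV M) : Prop :=
  v.pr.card < H.G v.stem.length ∧
    (∀ t, i = .ed t → ∀ n < v.stem.length, v.stem.getD n 0 < H.G n) ∧
    ∀ c, i = .cc c → v.pr = ∅

theorem legit_top (i : Ix T C) : Legit H i (CV.top : CV M) := by
  refine ⟨?_, fun t _ n hn => ?_, fun c _ => rfl⟩
  · simpa using H.pos 0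
  · simp at hn

/-- conditions -/
def Cond (H : Hit) (M T C : Type) : Type :=
  {f : Ix T C → CV M // {i | f i ≠ CV.top}.Finite ∧ ∀ i, Legit H i (f i)}

instance : CoeFun (Cond H M T C) fun _ => Ix T C → CV M := ⟨Subtype.val⟩

theorem Cond.ext' {p q : Cond H M T C} (h : ∀ i, p i = q i) : p = q := Subtype.ext (funext h)

/-- the support -/
noncomputable def Cond.supp (p : Cond H M T C) : Finset (Ix T C) := p.2.1.toFinset

theorem Cond.mem_supp {p : Cond H M T C} {i : Ix T C} : i ∈ p.supp ↔ p i ≠ CV.top :=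
  p.2.1.mem_toFinset

theorem Cond.legit (p : Cond H M T C) (i : Ix T C) : Legit H i (p i) := p.2.2 i

/-- the trivial condition -/
def Cond.one : Cond H M T C := ⟨fun _ => CV.top, by simp, fun i => legit_top i⟩

@[simp] theorem Cond.one_apply (i : Ix T C) : (Cond.one : Cond H M T C) i = CV.top := rfl

/-- `q` on `S`, and `p` elsewhere -/
noncomputable def mix (S : Set (Ix T C)) (q p : Cond H M T C) : Cond H M T C :=
  ⟨fun i => if i ∈ S then q i else p i, (q.2.1.union p.2.1).subset (by
    intro i hi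
    simp only [Set.mem_ofPred_eq] at hi
    by_cases h : i ∈ S
    · rw [if_pos h] at hi
      exact Or.inl hi
    · rw [if_neg h] at hi
      exact Or.inr hi), fun i => by
    show Legit H i (if i ∈ S then q i else p i)
    by_cases h : i ∈ S
    · rw [if_pos h]
      exact q.2.2 i
    · rw [if_neg h]
      exact p.2.2 i⟩

theorem mix_mem {S : Set (Ix T C)} (q p : Cond H M T C) {i : Ix T C} (h : i ∈ S) :
    mix S q p i = q i := if_pos h

theorem mix_notMem {S : Set (Ix T C)} (q p : Cond H M T C) {i : Ix T C} (h : i ∉ S) :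
    mix S q p i = p i := if_neg h

/-- change of one coordinate -/
noncomputable def upd (p : Cond H M T C) (j : Ix T C) (v : CV M) (hv : Legit H j v) :
    Cond H M T C :=
  ⟨fun i => if i = j then v else p i, (p.2.1.union (Set.finite_singleton j)).subset (by
    intro i hi
    by_cases h : i = j
    · exact Or.inr h
    · simp only [Set.mem_ofPred_eq, if_neg h] at hi
      exact Or.inl hi), fun i => by
    show Legit H i (if i = j then v else p i)
    by_cases h : i = j
    · subst h
      rw [if_pos rfl]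
      exact hv
    · rw [if_neg h]
      exact p.2.2 i⟩

@[simp] theorem upd_same (p : Cond H M T C) (j : Ix T C) (v : CV M) (hv : Legit H j v) :
    upd p j v hv j = v := if_pos rfl

theorem upd_of_ne (p : Cond H M T C) {i j : Ix T C} (v : CV M) (hv : Legit H j v) (h : i ≠ j) :
    upd p j v hv i = p i := if_neg h

/-! ### The order of the coordinates -/

/-- the order of the coordinates -/
def Ix.lt [LinearOrder T] : Ix T C → Ix T C → Prop
  | .ed t', .ed t => t' < t
  | .cc _, .ed _ => True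
  | _, .cc _ => False

theorem Ix.not_lt_cc [LinearOrder T] (i : Ix T C) (c : C) : ¬ Ix.lt i (.cc c) := by
  cases i <;> exact fun h => h

theorem Ix.tr [LinearOrder T] {i j k : Ix T C} (h1 : Ix.lt i j) (h2 : Ix.lt j k) :
    Ix.lt i k := by
  rcases j with t' | c
  · rcases k with t1 | c1
    · rcases i with t2 | c2
      · exact lt_trans (a := t2) (b := t') (c := t1) h1 h2
      · trivial
    · exact absurd h2 (Ix.not_lt_cc _ _)
  · exact absurd h1 (Ix.not_lt_cc _ _)

theorem Ix.wf [LinearOrder T] [WellFoundedLT T] : WellFounded (Ix.lt (T := T) (C := C)) := by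
  have h3 : ∀ c : C, Acc (Ix.lt (T := T) (C := C)) (.cc c) := fun c =>
    ⟨_, fun i hi => absurd hi (Ix.not_lt_cc i c)⟩
  have h4 : ∀ t : T, Acc (Ix.lt (T := T) (C := C)) (.ed t) := by
    intro t
    induction t using WellFoundedLT.induction with
    | ind t ih =>
      refine ⟨_, fun i hi => ?_⟩
      rcases i with t' | c
      · exact ih t' hi
      · exact h3 c
  refine ⟨fun i => ?_⟩
  rcases i with t | c
  · exact h4 t
  · exact h3 c

/-! ### Names and the order -/

/-- raw names for functions from `ℕ` to `ℕ`: the value at `n` is the second component of the first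
pair whose first component is in the generic filter (or `0` if there is none) -/
abbrev Nm (H : Hit) (M T C : Type) : Type := ℕ → ℕ → Option (Cond H M T C × ℕ)

/-- two conditions are compatible -/
def Cmp (R : Cond H M T C → Cond H M T C → Prop) (t u : Cond H M T C) : Prop :=
  ∃ r, R r t ∧ R r u

/-- the condition `t` decides that the value at `n` is `v` -/
def Val (R : Cond H M T C → Cond H M T C → Prop) (t : Cond H M T C) (x : Nm H M T C)
    (n v : ℕ) : Prop :=
  (∃ m u, x n m = some (u, v) ∧ R t u ∧ ∀ m' < m, ∀ u' v', x n m' = some (u', v') → ¬ Cmp R t u') ∨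
    (v = 0 ∧ ∀ m u v', x n m = some (u, v') → ¬ Cmp R t u)

/-- the requirement at one coordinate: the new values of the generic function at `i` are different
from the values at `i` of the functions named by the promises -/
def Req (R : Cond H M T C → Cond H M T C → Prop) (ρ : M → Option (Nm H M T C))
    (q : Cond H M T C) (v w : CV M) : Prop :=
  w.stem <+: v.stem ∧ w.pr ⊆ v.pr ∧ ∀ k ∈ w.pr, ∀ x, ρ k = some x →
    ∀ i, w.stem.length ≤ i → i < v.stem.length → ∀ t, R t q → ∀ n,
      Val R t x i n → v.stem.getD i 0 ≠ n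

/-- the parameters of the iteration: the requirements at the coordinates `ed t` -/
abbrev Par (H : Hit) (M T C : Type) : Type := T → M → Option (Nm H M T C)

/-- the requirements at all coordinates -/
def reqOf (Γ : Par H M T C) : Ix T C → M → Option (Nm H M T C)
  | .ed t => Γ t
  | .cc _ => fun _ => none

variable [LinearOrder T] [WellFoundedLT T]

/-- the relation at the coordinate `j` -/
noncomputable def ext (Γ : Par H M T C) : Ix T C → Cond H M T C → Cond H M T C → Prop :=
  Ix.wf.fix fun j rec q p =>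
    Req (fun q p => ∀ i, ∀ h : Ix.lt i j, rec i h q p) (reqOf Γ j) q (q j) (p j)

/-- the smaller coordinates -/
def below (j : Ix T C) : Set (Ix T C) := {i | Ix.lt i j}

/-- `q` is stronger than `p` on the coordinates in `W` -/
def le (Γ : Par H M T C) (W : Set (Ix T C)) (q p : Cond H M T C) : Prop := ∀ j ∈ W, ext Γ j q p

/-- lower sets -/
def Low (S : Set (Ix T C)) : Prop := ∀ j ∈ S, ∀ i, Ix.lt i j → i ∈ S

variable {Γ : Par H M T C}

theorem low_below (j : Ix T C) : Low (below j) := fun _ hk _ hi => Ix.tr hi hk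

theorem low_univ : Low (Set.univ : Set (Ix T C)) := fun _ _ _ _ => Set.mem_univ _

@[elab_as_elim]
theorem Ix.ind {P : Ix T C → Prop} (j : Ix T C)
    (h : ∀ j : Ix T C, (∀ i : Ix T C, Ix.lt i j → P i) → P j) : P j :=
  (Ix.wf (T := T) (C := C)).induction j h

theorem not_lt_self (j : Ix T C) : ¬ Ix.lt j j := fun h =>
  (Ix.wf (T := T) (C := C)).irrefl.irrefl j h

theorem ext_iff {j : Ix T C} {q p : Cond H M T C} :
    ext Γ j q p ↔ Req (le Γ (below j)) (reqOf Γ j) q (q j) (p j) := by
  conv_lhs => rw [ext, WellFounded.fix_eq]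
  rfl

theorem le_mono {S W : Set (Ix T C)} (h : S ⊆ W) {q p : Cond H M T C} (hqp : le Γ W q p) : le Γ S q p :=
  fun j hj => hqp j (h hj)

theorem getD_prefix {s s' : List ℕ} (h : s <+: s') {i : ℕ} (hi : i < s.length) :
    s'.getD i 0 = s.getD i 0 := by
  obtain ⟨r, rfl⟩ := h
  exact List.getD_append _ _ _ _ hi

theorem ext_refl_trans (j : Ix T C) :
    (∀ p : Cond H M T C, ext Γ j p p) ∧
    ∀ r q p : Cond H M T C, le Γ (below j) r q → ext Γ j r q → ext Γ j q p →
      ext Γ j r p := by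
  induction j using Ix.ind with
  | _ j ih =>
    refine ⟨fun p => ?_, fun r q p hrq h1 h2 => ?_⟩
    · rw [ext_iff]
      refine ⟨List.prefix_refl _, Finset.Subset.refl _, fun k _ x _ i hi hi' => ?_⟩
      omega
    · have htrans : ∀ r q p : Cond H M T C, le Γ (below j) r q →
          le Γ (below j) q p → le Γ (below j) r p := by
        intro r q p hrq hqp i hi
        exact (ih i hi).2 r q p (fun l hl => hrq l (Ix.tr hl hi)) (hrq i hi) (hqp i hi)
      rw [ext_iff] at h1 h2 ⊢
      refine ⟨h2.1.trans h1.1, fun _ hk => h1.2.1 (h2.2.1 hk), ?_⟩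
      intro k hk x hx i hi hi' t ht n hn
      by_cases h : i < (q j).stem.length
      · rw [getD_prefix h1.1 h]
        exact h2.2.2 k hk x hx i hi h t (htrans t r q ht hrq) n hn
      · exact h1.2.2 k (h2.2.1 hk) x hx i (not_lt.1 h) hi' t ht n hn

theorem ext_refl (j : Ix T C) (p : Cond H M T C) : ext Γ j p p := (ext_refl_trans j).1 p

theorem le_refl' (W : Set (Ix T C)) (p : Cond H M T C) : le Γ W p p := fun j _ => ext_refl j p

theorem le_trans' {W : Set (Ix T C)} (hW : Low W) {r q p : Cond H M T C} (h1 : le Γ W r q)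
    (h2 : le Γ W q p) : le Γ W r p := fun j hj =>
  (ext_refl_trans j).2 r q p (fun i hi => h1 i (hW j hj i hi)) (h1 j hj) (h2 j hj)

/-- the relation at `j` only depends on the coordinates up to `j` -/
theorem ext_congr (j : Ix T C) : ∀ {q q' p p' : Cond H M T C},
    (∀ i, Ix.lt i j → q i = q' i) → q j = q' j → p j = p' j →
    ext Γ j q p → ext Γ j q' p' := by
  induction j using Ix.ind with
  | _ j ih =>
    intro q q' p p' hq hqj hp h
    rw [ext_iff] at h ⊢
    rw [← hqj, ← hp]
    refine ⟨h.1, h.2.1, fun k hk x hx i hi hi' t ht n hn => ?_⟩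
    refine h.2.2 k hk x hx i hi hi' t (fun l hl => ?_) n hn
    exact ih l hl (fun _ _ => rfl) rfl (hq l hl).symm (ht l hl)

theorem le_congr {W : Set (Ix T C)} (hW : Low W) {q q' p p' : Cond H M T C}
    (hq : ∀ i ∈ W, q i = q' i) (hp : ∀ i ∈ W, p i = p' i) (h : le Γ W q p) : le Γ W q' p' :=
  fun j hj => ext_congr j (fun i hi => hq i (hW j hj i hi)) (hq j hj) (hp j hj) (h j hj)

theorem le_of_eq {W : Set (Ix T C)} (hW : Low W) {q p : Cond H M T C} (h : ∀ i ∈ W, q i = p i) :
    le Γ W q p := le_congr hW (fun _ _ => rfl) h (le_refl' W q)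

theorem ext_same_stem {j : Ix T C} {q p : Cond H M T C} (h1 : (p j).stem = (q j).stem)
    (h2 : (p j).pr ⊆ (q j).pr) : ext Γ j q p := by
  rw [ext_iff]
  refine ⟨h1 ▸ List.prefix_refl _, h2, fun k _ x _ i hi hi' => ?_⟩
  rw [h1] at hi
  omega

theorem ext_of_eq {j : Ix T C} {q p : Cond H M T C} (h : q j = p j) : ext Γ j q p :=
  ext_same_stem (by rw [h]) (by rw [h])

theorem ext_top {j : Ix T C} {q p : Cond H M T C} (h : p j = CV.top) : ext Γ j q p := by
  rw [ext_iff, h]
  refine ⟨List.nil_prefix, Finset.empty_subset _, fun k hk => ?_⟩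
  simp at hk

/-- coordinates without requirements -/
theorem ext_noreq {j : Ix T C} {q p : Cond H M T C} (h : ∀ k, reqOf Γ j k = none)
    (h1 : (p j).stem <+: (q j).stem) (h2 : (p j).pr ⊆ (q j).pr) : ext Γ j q p := by
  rw [ext_iff]
  refine ⟨h1, h2, fun k _ x hx => ?_⟩
  rw [h k] at hx
  exact absurd hx (by simp)

theorem ext_stem {j : Ix T C} {q p : Cond H M T C} (h : ext Γ j q p) : (p j).stem <+: (q j).stem := by
  rw [ext_iff] at h
  exact h.1

theorem ext_pr {j : Ix T C} {q p : Cond H M T C} (h : ext Γ j q p) : (p j).pr ⊆ (q j).pr := by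
  rw [ext_iff] at h
  exact h.2.1

/-- amalgamation -/
theorem mix_le {S W : Set (Ix T C)} (hS : Low S) {q p : Cond H M T C} (h : le Γ S q p) :
    le Γ W (mix S q p) p := by
  intro j _
  by_cases hj : j ∈ S
  · exact ext_congr j (fun i hi => (mix_mem q p (hS j hj i hi)).symm) (mix_mem q p hj).symm rfl
      (h j hj)
  · exact ext_of_eq (mix_notMem q p hj)

theorem mix_eq {S : Set (Ix T C)} (hS : Low S) (q p : Cond H M T C) : le Γ S (mix S q p) q :=
  le_of_eq hS fun _ hi => mix_mem q p hi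

/-! ### Decision of values -/

theorem Cmp.mono {W : Set (Ix T C)} (hW : Low W) {t t' u : Cond H M T C} (ht : le Γ W t' t)
    (h : Cmp (le Γ W) t' u) : Cmp (le Γ W) t u := by
  obtain ⟨r, h1, h2⟩ := h
  exact ⟨r, le_trans' hW h1 ht, h2⟩

theorem Val.mono {W : Set (Ix T C)} (hW : Low W) {t t' : Cond H M T C} {x : Nm H M T C} {n v : ℕ}
    (h : Val (le Γ W) t x n v) (ht : le Γ W t' t) : Val (le Γ W) t' x n v := by
  rcases h with ⟨m, u, h1, h2, h3⟩ | ⟨h1, h2⟩
  · exact Or.inl ⟨m, u, h1, le_trans' hW ht h2, fun m' hm' u' v' hu' hc =>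
      h3 m' hm' u' v' hu' (hc.mono hW ht)⟩
  · exact Or.inr ⟨h1, fun m u v' hu hc => h2 m u v' hu (hc.mono hW ht)⟩

theorem Val.unique {W : Set (Ix T C)} {t : Cond H M T C} {x : Nm H M T C} {n v v' : ℕ}
    (h : Val (le Γ W) t x n v) (h' : Val (le Γ W) t x n v') : v = v' := by
  rcases h with ⟨m, u, h1, h2, h3⟩ | ⟨h1, h2⟩ <;> rcases h' with ⟨m', u', h1', h2', h3'⟩ | ⟨h1', h2'⟩
  · rcases lt_trichotomy m m' with h | rfl | h
    · exact absurd ⟨t, le_refl' W t, h2⟩ (h3' m h u v h1)
    · rw [h1] at h1'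
      have := Option.some_injective _ h1'
      exact (Prod.mk.inj this).2
    · exact absurd ⟨t, le_refl' W t, h2'⟩ (h3 m' h u' v' h1')
  · exact absurd ⟨t, le_refl' W t, h2⟩ (h2' m u v h1)
  · exact absurd ⟨t, le_refl' W t, h2'⟩ (h2 m' u' v' h1')
  · rw [h1, h1']

theorem Val.dense {W : Set (Ix T C)} (hW : Low W) (t : Cond H M T C) (x : Nm H M T C) (n : ℕ) :
    ∃ t', le Γ W t' t ∧ ∃ v, Val (le Γ W) t' x n v := by
  by_cases h : ∃ m u v, x n m = some (u, v) ∧ Cmp (le Γ W) t u
  · obtain ⟨u, v, hu, r, hr, hr'⟩ := Nat.find_spec h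
    refine ⟨r, hr, v, Or.inl ⟨Nat.find h, u, hu, hr', fun m' hm' u' v' hu' hc => ?_⟩⟩
    exact Nat.find_min h hm' ⟨u', v', hu', hc.mono hW hr⟩
  · exact ⟨t, le_refl' W t, 0, Or.inr ⟨rfl, fun m u v' hu hc => h ⟨m, u, v', hu, hc⟩⟩⟩

/-- finitely many values can be decided -/
theorem Val.decideF {β : Type} {W : Set (Ix T C)} (hW : Low W) (F : Finset β)
    (X : β → Nm H M T C) (n : β → ℕ) (t : Cond H M T C) :
    ∃ t', le Γ W t' t ∧ ∀ b ∈ F, ∃ v, Val (le Γ W) t' (X b) (n b) v := by
  induction F using Finset.induction_on with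
  | empty => exact ⟨t, le_refl' W t, fun b h => absurd h (Finset.notMem_empty b)⟩
  | insert b F _ ih =>
    obtain ⟨t1, h1, h2⟩ := ih
    obtain ⟨t2, h3, v, hv⟩ := Val.dense (Γ := Γ) hW t1 (X b) (n b)
    refine ⟨t2, le_trans' hW h3 h1, fun b' h => ?_⟩
    rcases Finset.mem_insert.1 h with rfl | h
    · exact ⟨v, hv⟩
    · obtain ⟨w, hw⟩ := h2 b' h
      exact ⟨w, hw.mono hW h3⟩

/-- the conditions used in the name are supported in `W` -/
def Supp (W : Set (Ix T C)) (x : Nm H M T C) : Prop :=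
  ∀ n m u v, x n m = some (u, v) → ∀ i ∉ W, u i = CV.top

theorem Supp.mono {S W : Set (Ix T C)} (h : S ⊆ W) {x : Nm H M T C} (hx : Supp S x) : Supp W x :=
  fun n m u v hu i hi => hx n m u v hu i fun h' => hi (h h')

theorem Supp.le_iff {S W : Set (Ix T C)} (hSW : S ⊆ W) {x : Nm H M T C} (hx : Supp S x) {n m v : ℕ}
    {u : Cond H M T C} (hu : x n m = some (u, v)) (t : Cond H M T C) : le Γ W t u ↔ le Γ S t u := by
  refine ⟨fun h => le_mono hSW h, fun h j hj => ?_⟩
  by_cases hjS : j ∈ S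
  · exact h j hjS
  · exact ext_top (hx n m u v hu j hjS)

theorem Supp.cmp_iff {S W : Set (Ix T C)} (hS : Low S) (hSW : S ⊆ W) {x : Nm H M T C} (hx : Supp S x)
    {n m v : ℕ} {u : Cond H M T C} (hu : x n m = some (u, v)) (t : Cond H M T C) :
    Cmp (le Γ W) t u ↔ Cmp (le Γ S) t u := by
  constructor
  · rintro ⟨r, h1, h2⟩
    exact ⟨r, le_mono hSW h1, le_mono hSW h2⟩
  · rintro ⟨r, h1, h2⟩
    refine ⟨mix S r t, mix_le hS h1, (hx.le_iff hSW hu _).2 ?_⟩
    exact le_congr hS (fun i hi => (mix_mem r t hi).symm) (fun _ _ => rfl) h2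

theorem Val.iff_of_supp {S W : Set (Ix T C)} (hS : Low S) (hSW : S ⊆ W) {x : Nm H M T C}
    (hx : Supp S x) {t : Cond H M T C} {n v : ℕ} :
    Val (le Γ W) t x n v ↔ Val (le Γ S) t x n v := by
  constructor
  · rintro (⟨m, u, h1, h2, h3⟩ | ⟨h1, h2⟩)
    · exact Or.inl ⟨m, u, h1, (hx.le_iff hSW h1 t).1 h2, fun m' hm' u' v' hu' hc =>
        h3 m' hm' u' v' hu' ((hx.cmp_iff hS hSW hu' t).2 hc)⟩
    · exact Or.inr ⟨h1, fun m u v' hu hc => h2 m u v' hu ((hx.cmp_iff hS hSW hu t).2 hc)⟩
  · rintro (⟨m, u, h1, h2, h3⟩ | ⟨h1, h2⟩)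
    · exact Or.inl ⟨m, u, h1, (hx.le_iff hSW h1 t).2 h2, fun m' hm' u' v' hu' hc =>
        h3 m' hm' u' v' hu' ((hx.cmp_iff hS hSW hu' t).1 hc)⟩
    · exact Or.inr ⟨h1, fun m u v' hu hc => h2 m u v' hu ((hx.cmp_iff hS hSW hu t).1 hc)⟩

theorem Val.toUniv {W : Set (Ix T C)} (hW : Low W) {x : Nm H M T C} (hx : Supp W x) {t : Cond H M T C}
    {n v : ℕ} (h : Val (le Γ W) t x n v) : Val (le Γ Set.univ) t x n v :=
  (Val.iff_of_supp hW (Set.subset_univ _) hx).2 h

end Pool.Agent.H631.ED
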