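import Pool.Agent.H631.ED.Forced

/-!
# The bound `G` for a given order function `F`
-/

set_option autoImplicit false

namespace Pool.Agent.H631.ED

open Classical

/-- one step of the recursion: `(∏_{i < n} G i, s n, G (n - 1))` -/
def step (F : ℕ → ℕ) (n : ℕ) (x : ℕ × ℕ × ℕ) : ℕ × ℕ × ℕ :=
  (x.1 * (x.2.2 + n * ((F (x.2.1 + x.1 ^ n)) ^ (x.1 ^ n)) ^ (x.1 ^ n) + 2),
    x.2.1 + x.1 ^ n,
    x.2.2 + n * ((F (x.2.1 + x.1 ^ n)) ^ (x.1 ^ n)) ^ (x.1 ^ n) + 2)

/-- the recursion -/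
def st (F : ℕ → ℕ) : ℕ → ℕ × ℕ × ℕ
  | 0 => (1, 0, 0)
  | n + 1 => step F n (st F n)

/-- the number of the sequences of length `n` with values below `G` -/
def rho (F : ℕ → ℕ) (n : ℕ) : ℕ := (st F n).1

/-- the first element of the block `n` -/
def sg (F : ℕ → ℕ) (n : ℕ) : ℕ := (st F n).2.1

/-- the number of elements of the block `n` -/
def ell (F : ℕ → ℕ) (n : ℕ) : ℕ := rho F n ^ n

/-- a bound of the values of `F` in the block `n` -/
def ff (F : ℕ → ℕ) (n : ℕ) : ℕ := F (sg F (n + 1))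

/-- the number of functions on the block `n` -/
def bb (F : ℕ → ℕ) (n : ℕ) : ℕ := ff F n ^ ell F n

/-- the function `G` -/
def GG (F : ℕ → ℕ) (n : ℕ) : ℕ := (st F (n + 1)).2.2

variable {F : ℕ → ℕ}

theorem sg_succ (n : ℕ) : sg F (n + 1) = sg F n + ell F n := rfl

theorem rho_succ (n : ℕ) : rho F (n + 1) = rho F n * GG F n := rfl

theorem GG_eq (n : ℕ) : GG F n = (st F n).2.2 + n * bb F n ^ ell F n + 2 := rfl

theorem GG_succ (n : ℕ) : GG F (n + 1) = GG F n + (n + 1) * bb F (n + 1) ^ ell F (n + 1) + 2 := rfl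

theorem two_le_GG (n : ℕ) : 2 ≤ GG F n := by
  rw [GG_eq]
  omega

theorem GG_mono : Monotone (GG F) := monotone_nat_of_le_succ fun n => by
  rw [GG_succ]
  omega

theorem rho_pos (n : ℕ) : 0 < rho F n := by
  induction n with
  | zero => exact Nat.one_pos
  | succ n ih =>
    rw [rho_succ]
    exact Nat.mul_pos ih (lt_of_lt_of_le (by norm_num) (two_le_GG n))

theorem ell_pos (n : ℕ) : 0 < ell F n := Nat.pow_pos (rho_pos n)

theorem le_sg (n : ℕ) : n ≤ sg F n := by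
  induction n with
  | zero => exact Nat.zero_le _
  | succ n ih =>
    rw [sg_succ]
    have := ell_pos (F := F) n
    omega

theorem sg_mono : Monotone (sg F) := monotone_nat_of_le_succ fun n => by
  rw [sg_succ]
  omega

theorem rho_eq (n : ℕ) : rho F n = ∏ i ∈ Finset.range n, GG F i := by
  induction n with
  | zero => rfl
  | succ n ih => rw [rho_succ, ih, Finset.prod_range_succ]

theorem card_stems (n : ℕ) : (stems (GG F) n).card ≤ rho F n := by
  refine Finset.card_image_le.trans ?_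
  rw [Fintype.card_piFinset, rho_eq]
  simp only [Finset.card_range]
  rw [Fin.prod_univ_eq_prod_range (fun i => GG F i) n]

section
variable (hF : ∀ n, 2 ≤ F n)
include hF

theorem ff_pos (n : ℕ) : 0 < ff F n := lt_of_lt_of_le (by norm_num) (hF _)

theorem bb_pos (n : ℕ) : 0 < bb F n := Nat.pow_pos (ff_pos hF n)

omit hF in
theorem lt_GG (n : ℕ) : n * bb F n ^ ell F n < GG F n := by
  rw [GG_eq]
  omega

theorem le_GG (hm : Monotone F) (n : ℕ) : n * F n ≤ GG F n := by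
  refine le_trans (Nat.mul_le_mul_left n ?_) (lt_GG n).le
  have h1 : F n ≤ ff F n := hm ((Nat.le_succ n).trans (le_sg _))
  have h2 : ff F n ≤ bb F n := Nat.le_self_pow (ell_pos n).ne' _
  exact h1.trans (h2.trans (Nat.le_self_pow (ell_pos n).ne' _))

end

/-! ### The codes -/

/-- functions on the block `n` -/
abbrev BF (F : ℕ → ℕ) (n : ℕ) : Type := Fin (ell F n) → Fin (ff F n)

/-- codes of functions on the block `n` -/
noncomputable def eqB (F : ℕ → ℕ) (n : ℕ) : BF F n ≃ Fin (bb F n) :=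
  Fintype.equivFinOfCardEq (by rw [Fintype.card_fun, Fintype.card_fin, Fintype.card_fin]; rfl)

/-- codes of families of functions on the block `n` -/
noncomputable def eqZ (F : ℕ → ℕ) (k n : ℕ) :
    (Fin (rho F n ^ k) → BF F n) ≃ Fin (bb F n ^ (rho F n ^ k)) :=
  Fintype.equivFinOfCardEq (by
    rw [Fintype.card_fun, Fintype.card_fun, Fintype.card_fin, Fintype.card_fin, Fintype.card_fin]
    rfl)

/-- the function coded by `a` -/
noncomputable def dec (hF : ∀ n, 2 ≤ F n) (n a : ℕ) : BF F n :=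
  (eqB F n).symm ⟨a % bb F n, Nat.mod_lt _ (bb_pos hF n)⟩

/-- the family coded by `z` -/
noncomputable def decZ (hF : ∀ n, 2 ≤ F n) (k n z : ℕ) : Fin (rho F n ^ k) → BF F n :=
  (eqZ F k n).symm ⟨z % bb F n ^ (rho F n ^ k), Nat.mod_lt _ (Nat.pow_pos (bb_pos hF n))⟩

theorem dec_eqB (hF : ∀ n, 2 ≤ F n) (n : ℕ) (g : BF F n) : dec hF n (eqB F n g) = g := by
  have h1 : (⟨((eqB F n g : Fin (bb F n)) : ℕ) % bb F n, Nat.mod_lt _ (bb_pos hF n)⟩ :
      Fin (bb F n)) = eqB F n g := Fin.ext (Nat.mod_eq_of_lt (eqB F n g).2)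
  rw [dec, h1, Equiv.symm_apply_apply]

theorem decZ_eqZ (hF : ∀ n, 2 ≤ F n) (k n : ℕ) (g : Fin (rho F n ^ k) → BF F n) :
    decZ hF k n (eqZ F k n g) = g := by
  have h1 : (⟨((eqZ F k n g : Fin (bb F n ^ (rho F n ^ k))) : ℕ) % bb F n ^ (rho F n ^ k),
      Nat.mod_lt _ (Nat.pow_pos (bb_pos hF n))⟩ : Fin (bb F n ^ (rho F n ^ k))) = eqZ F k n g :=
    Fin.ext (Nat.mod_eq_of_lt (eqZ F k n g).2)
  rw [decZ, h1, Equiv.symm_apply_apply]

/-- the data of the forcing for `F` -/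
noncomputable def HH (hF : ∀ n, 2 ≤ F n) : Hit where
  G := GG F
  mono := GG_mono
  Z k n := bb F n ^ (rho F n ^ k)
  hit k n a z := ∀ i, ∃ j, dec hF n a j = decZ hF k n z i j
  Zpos k n := Nat.pow_pos (bb_pos hF n)
  Zlt k n hkn := by
    refine lt_of_le_of_lt (Nat.mul_le_mul_left n ?_) (lt_GG n)
    exact Nat.pow_le_pow_right (bb_pos hF n) (Nat.pow_le_pow_right (rho_pos n) hkn)
  comb k n hkn z hz := by
    let e := Finset.equivFin (stems (GG F) n)
    let w : Fin (rho F n ^ (k + 1)) → BF F n := fun i =>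
      let y : Fin (rho F n ^ k) × Fin (rho F n) := finProdFinEquiv.symm
        (Fin.cast (pow_succ (rho F n) k) i)
      if h : (y.2 : ℕ) < (stems (GG F) n).card then decZ hF k n (z (e.symm ⟨y.2, h⟩)) y.1
        else decZ hF k n 0 y.1
    refine ⟨eqZ F (k + 1) n w, (eqZ F (k + 1) n w).2, fun a ha σ hσ i => ?_⟩
    have h1 : ((e ⟨σ, hσ⟩ : Fin _) : ℕ) < rho F n := lt_of_lt_of_le (e ⟨σ, hσ⟩).2 (card_stems n)
    obtain ⟨j, hj⟩ := ha (Fin.cast (pow_succ (rho F n) k).symm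
      (finProdFinEquiv (i, ⟨(e ⟨σ, hσ⟩ : Fin _), h1⟩)))
    refine ⟨j, ?_⟩
    rw [hj, decZ_eqZ]
    simp only [w, Fin.cast_cast, Fin.cast_eq_self, Equiv.symm_apply_apply, Fin.eta]
    rw [dif_pos (e ⟨σ, hσ⟩).2]
  ex k n hkn z hz := by
    have h1 : rho F n ^ k ≤ ell F n := Nat.pow_le_pow_right (rho_pos n) hkn
    let g : BF F n := fun j => if h : (j : ℕ) < rho F n ^ k then decZ hF k n z ⟨j, h⟩ j
      else ⟨0, ff_pos hF n⟩
    refine ⟨eqB F n g, fun i => ⟨Fin.castLE h1 i, ?_⟩⟩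
    rw [dec_eqB]
    have h2 : ((Fin.castLE h1 i : Fin _) : ℕ) < rho F n ^ k := i.2
    show (if h : ((Fin.castLE h1 i : Fin _) : ℕ) < rho F n ^ k then
      decZ hF k n z ⟨(Fin.castLE h1 i : Fin _), h⟩ (Fin.castLE h1 i) else ⟨0, ff_pos hF n⟩) = _
    rw [dif_pos h2]
    rfl

/-! ### The blocks -/

theorem exists_block (m : ℕ) : ∃ n, m < sg F (n + 1) := ⟨m, le_sg (m + 1)⟩

/-- the block of `m` -/
noncomputable def blk (F : ℕ → ℕ) (m : ℕ) : ℕ := Nat.find (exists_block (F := F) m)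

theorem blk_eq {n m : ℕ} (h1 : sg F n ≤ m) (h2 : m < sg F (n + 1)) : blk F m = n := by
  refine (Nat.find_eq_iff _).2 ⟨h2, fun k hk h => ?_⟩
  exact absurd h (not_lt.2 (le_trans (sg_mono (by omega)) h1))

/-- the value at `m` of the function coded by `a` -/
noncomputable def dvv (hF : ∀ n, 2 ≤ F n) (m a : ℕ) : ℕ :=
  if h : m - sg F (blk F m) < ell F (blk F m) then dec hF (blk F m) a ⟨_, h⟩ else 0

/-- the code of the functions bounded by `F` -/
noncomputable def KK (hF : ∀ n, 2 ≤ F n) (hm : Monotone F) : Code (HH hF) F where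
  bl := blk F
  dv := dvv hF
  B n := Finset.Ico (sg F n) (sg F (n + 1))
  blB n m hm := by
    rw [Finset.mem_Ico] at hm
    exact ⟨blk_eq hm.1 hm.2, (le_sg n).trans hm.1⟩
  code n u hu := by
    have h1 : ∀ j : Fin (ell F n), sg F n + j ∈ Finset.Ico (sg F n) (sg F (n + 1)) := by
      intro j
      rw [Finset.mem_Ico, sg_succ]
      have := j.2
      omega
    have h2 : ∀ j : Fin (ell F n), u (sg F n + j) < ff F n := by
      intro j
      refine lt_of_lt_of_le (hu _ (h1 j)) (hm ?_)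
      have := Finset.mem_Ico.1 (h1 j)
      omega
    let g : Fin (rho F n ^ 0) → BF F n := fun _ j => ⟨u (sg F n + j), h2 j⟩
    refine ⟨eqZ F 0 n g, (eqZ F 0 n g).2, fun a ha => ?_⟩
    obtain ⟨j, hj⟩ := ha ⟨0, by simp⟩
    rw [decZ_eqZ] at hj
    refine ⟨sg F n + j, h1 j, ?_⟩
    have h3 := Finset.mem_Ico.1 (h1 j)
    have h4 : blk F (sg F n + j) = n := blk_eq h3.1 h3.2
    have key : ∀ n' (m : ℕ), n' = n → (h : m - sg F n' < ell F n') →
        m = sg F n + j → ((dec hF n' a ⟨m - sg F n', h⟩ : Fin _) : ℕ) = u m := by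
      rintro n' m rfl h rfl
      have h5 : (⟨sg F n' + j - sg F n', h⟩ : Fin (ell F n')) = j := Fin.ext (by simp)
      rw [h5, hj]
    have h5 : sg F n + j - sg F (blk F (sg F n + j)) < ell F (blk F (sg F n + j)) := by
      rw [h4]
      have := j.2
      omega
    rw [dvv, dif_pos h5]
    exact key _ _ h4 h5 rfl

/-! ### Computability -/

theorem primrec_pow : Primrec₂ (fun a b : ℕ => a ^ b) := Primrec₂.unpaired'.1 Nat.Primrec.pow

theorem step_computable (hF : Computable F) :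
    Computable (fun z : ℕ × (ℕ × ℕ × ℕ) => step F z.1 z.2) := by
  have hn : Computable (fun z : ℕ × (ℕ × ℕ × ℕ) => z.1) := Computable.fst
  have h1 : Computable (fun z : ℕ × (ℕ × ℕ × ℕ) => z.2.1) :=
    Computable.fst.comp Computable.snd
  have h2 : Computable (fun z : ℕ × (ℕ × ℕ × ℕ) => z.2.2.1) :=
    Computable.fst.comp (Computable.snd.comp Computable.snd)
  have h3 : Computable (fun z : ℕ × (ℕ × ℕ × ℕ) => z.2.2.2) :=
    Computable.snd.comp (Computable.snd.comp Computable.snd)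
  have hl : Computable (fun z : ℕ × (ℕ × ℕ × ℕ) => z.2.1 ^ z.1) :=
    primrec_pow.to_comp.comp h1 hn
  have hs : Computable (fun z : ℕ × (ℕ × ℕ × ℕ) => z.2.2.1 + z.2.1 ^ z.1) :=
    Primrec.nat_add.to_comp.comp h2 hl
  have hb : Computable (fun z : ℕ × (ℕ × ℕ × ℕ) => (F (z.2.2.1 + z.2.1 ^ z.1)) ^ (z.2.1 ^ z.1)) :=
    primrec_pow.to_comp.comp (hF.comp hs) hl
  have hb2 : Computable (fun z : ℕ × (ℕ × ℕ × ℕ) =>
      ((F (z.2.2.1 + z.2.1 ^ z.1)) ^ (z.2.1 ^ z.1)) ^ (z.2.1 ^ z.1)) :=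
    primrec_pow.to_comp.comp hb hl
  have hg : Computable (fun z : ℕ × (ℕ × ℕ × ℕ) => z.2.2.2 +
      z.1 * ((F (z.2.2.1 + z.2.1 ^ z.1)) ^ (z.2.1 ^ z.1)) ^ (z.2.1 ^ z.1) + 2) :=
    Primrec.nat_add.to_comp.comp (Primrec.nat_add.to_comp.comp h3
      (Primrec.nat_mul.to_comp.comp hn hb2)) (Computable.const 2)
  exact (Primrec.nat_mul.to_comp.comp h1 hg).pair (hs.pair hg)

theorem st_computable (hF : Computable F) : Computable (st F) := by
  have h1 : Computable₂ (fun (_ : ℕ) (z : ℕ × (ℕ × ℕ × ℕ)) => step F z.1 z.2) :=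
    (step_computable hF).comp Computable.snd
  have h2 := Computable.nat_rec (f := fun n : ℕ => n) (g := fun _ : ℕ => ((1, 0, 0) : ℕ × ℕ × ℕ))
    (h := fun (_ : ℕ) (z : ℕ × (ℕ × ℕ × ℕ)) => step F z.1 z.2) Computable.id
    (Computable.const _) h1
  refine h2.of_eq fun n => ?_
  induction n with
  | zero => rfl
  | succ n ih =>
    show step F n _ = step F n (st F n)
    rw [← ih]

theorem GG_computable (hF : Computable F) : Computable (GG F) :=
  Computable.snd.comp (Computable.snd.comp ((st_computable hF).comp Computable.succ))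

end Pool.Agent.H631.ED
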