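import Pool.Agent.H631.ED.Forced
import Pool.Agent.H631.ED.Concrete

/-!
# Bookkeeping, the cardinalities, and the forcing theorem
-/

set_option autoImplicit false
set_option linter.unusedSectionVars false

namespace Pool.Agent.H631.ED

open Classical Cardinal
open scoped Cardinal
open Pool.Agent.Helper669.Forcing

variable {H : Hit} {Λ T C : Type} [LinearOrder T] [WellFoundedLT T] {F : ℕ → ℕ}

/-- the parameters: the name with the code `a` is a requirement at `ed t` if its support is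
below `t` -/
noncomputable def GB (code : Nm H Λ T C → Λ) : Par H Λ T C := fun t a =>
  if h : ∃ X : Nm H Λ T C, code X = a ∧ Supp (below (.ed t)) X then some h.choose else none

theorem req_valid {code : Nm H Λ T C → Λ} (hcode : Function.Injective code) {t : T}
    {X : Nm H Λ T C} (h : Supp (below (.ed t)) X) : GB code t (code X) = some X := by
  have h1 : ∃ X' : Nm H Λ T C, code X' = code X ∧ Supp (below (.ed t)) X' := ⟨X, rfl, h⟩
  simp only [GB]
  rw [dif_pos h1]
  exact congrArg some (hcode h1.choose_spec.1)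

theorem supp_bdd (hT : ∀ S : Set T, S.Countable → ∃ β, ∀ t ∈ S, t < β) (X : Nm H Λ T C) :
    ∃ t : T, Supp (below (.ed t)) X := by
  obtain ⟨t, ht⟩ := hT (edset X) (edset_countable X)
  refine ⟨t, fun n m u v hu i hi => ?_⟩
  by_contra hcon
  apply hi
  rcases i with t' | c
  · exact ht t' ⟨n, m, u, v, hu, hcon⟩
  · trivial

/-- The forcing theorem, from the parts. -/
theorem forcing_of_card (K : Code H F) (hT : ∀ S : Set T, S.Countable → ∃ β, ∀ t ∈ S, t < β)
    (hC : ∀ A : T → Set C, (∀ t, (A t).Countable) → ∃ c, ∀ t, c ∉ A t)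
    (code : Nm H Λ T C → Λ) (hcode : Function.Injective code) (p : PP (GB code)) :
    p ∈ PhiHolds (PP (GB code)) F H.G T := by
  refine ⟨smallFam (fun X => ?_) p, largeFam K hC p⟩
  obtain ⟨t, ht⟩ := supp_bdd hT X
  exact ⟨t, ht, code X, req_valid hcode ht⟩

/-! ### Cardinalities -/

/-- the index set of the coordinates as a sum -/
def ixEmb : Ix T C → T ⊕ C
  | .ed t => Sum.inl t
  | .cc c => Sum.inr c

omit [LinearOrder T] [WellFoundedLT T] in
theorem ixEmb_inj : Function.Injective (ixEmb (T := T) (C := C)) := by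
  intro x y h
  cases x <;> cases y <;> simp [ixEmb] at h <;> simp [h]

omit [LinearOrder T] [WellFoundedLT T] in
theorem mk_Ix {c : Cardinal.{0}} (hc : ℵ₀ ≤ c) (hT : #T ≤ c) (hC : #C ≤ c) :
    #(Ix T C) ≤ c := by
  refine (Cardinal.mk_le_of_injective ixEmb_inj).trans ?_
  simp only [Cardinal.mk_sum, Cardinal.lift_id]
  exact (add_le_add hT hC).trans (Cardinal.add_eq_self hc).le

theorem mk_CV {M : Type} {c : Cardinal.{0}} (hc : ℵ₀ ≤ c) (hM : #M ≤ c) : #(CV M) ≤ c := by
  let f : CV M → List ℕ × Finset M := fun v => (v.stem, v.pr)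
  have hf : Function.Injective f := by
    rintro ⟨a, b⟩ ⟨a', b'⟩ h
    simp only [f, Prod.mk.injEq] at h
    rw [h.1, h.2]
  refine (Cardinal.mk_le_of_injective hf).trans ?_
  rw [Cardinal.mk_prod, Cardinal.lift_id, Cardinal.lift_id]
  have h1 : #(Finset M) ≤ c := by
    rcases finite_or_infinite M with h | h
    · exact (Cardinal.lt_aleph0_of_finite _).le.trans hc
    · rw [Cardinal.mk_finset_of_infinite]
      exact hM
  calc #(List ℕ) * #(Finset M) ≤ ℵ₀ * c := mul_le_mul' Cardinal.mk_le_aleph0 h1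
    _ = c := Cardinal.aleph0_mul_eq hc

omit [LinearOrder T] [WellFoundedLT T] in
theorem mk_Cond {M : Type} {c : Cardinal.{0}} (hc : ℵ₀ ≤ c) (hM : #M ≤ c)
    (hI : #(Ix T C) ≤ c) : #(Cond H M T C) ≤ c := by
  let f : Cond H M T C → Finset (Ix T C × CV M) := fun u => u.supp.image fun i => (i, u i)
  have hf : Function.Injective f := by
    intro u w h
    have key : ∀ u w : Cond H M T C, f u = f w → ∀ i : Ix T C, u i ≠ CV.top → w i = u i := by
      intro u w h i hi
      have h2 : (i, u i) ∈ f u := Finset.mem_image.2 ⟨i, Cond.mem_supp.2 hi, rfl⟩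
      rw [h] at h2
      obtain ⟨i', _, h3⟩ := Finset.mem_image.1 h2
      rw [Prod.mk.injEq] at h3
      obtain ⟨rfl, h4⟩ := h3
      exact h4
    apply Cond.ext'
    intro i
    by_cases h2 : u i = CV.top
    · by_cases h3 : w i = CV.top
      · rw [h2, h3]
      · exact key w u h.symm i h3
    · exact (key u w h i h2).symm
  refine (Cardinal.mk_le_of_injective hf).trans ?_
  have h2 : #(Ix T C × CV M) ≤ c := by
    rw [Cardinal.mk_prod, Cardinal.lift_id, Cardinal.lift_id]
    calc #(Ix T C) * #(CV M) ≤ c * c := mul_le_mul' hI (mk_CV hc hM)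
      _ = c := Cardinal.mul_eq_self hc
  rcases finite_or_infinite (Ix T C × CV M) with h3 | h3
  · exact (Cardinal.lt_aleph0_of_finite _).le.trans hc
  · rw [Cardinal.mk_finset_of_infinite]
    exact h2

omit [LinearOrder T] [WellFoundedLT T] in
theorem mk_Nm {M : Type} {c : Cardinal.{0}} (hc : ℵ₀ ≤ c) (hc2 : c ^ ℵ₀ = c)
    (hM : #M ≤ c) (hI : #(Ix T C) ≤ c) : #(Nm H M T C) ≤ c := by
  have h1 : #(Option (Cond H M T C × ℕ)) ≤ c := by
    rw [Cardinal.mk_option, Cardinal.mk_prod, Cardinal.lift_id, Cardinal.lift_id]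
    have h2 : #(Cond H M T C) * #ℕ ≤ c :=
      (mul_le_mul' (mk_Cond hc hM hI) Cardinal.mk_le_aleph0).trans (Cardinal.mul_aleph0_eq hc).le
    calc #(Cond H M T C) * #ℕ + 1 ≤ c + c := add_le_add h2 (Cardinal.one_le_aleph0.trans hc)
      _ = c := Cardinal.add_eq_self hc
  have h2 : #(ℕ → ℕ → Option (Cond H M T C × ℕ)) = #(Option (Cond H M T C × ℕ)) ^ ℵ₀ := by
    rw [← Cardinal.mk_congr (Equiv.curry ℕ ℕ (Option (Cond H M T C × ℕ)))]
    simp
  show #(ℕ → ℕ → Option (Cond H M T C × ℕ)) ≤ c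
  rw [h2]
  conv_rhs => rw [← hc2]
  exact Cardinal.power_le_power_right h1

/-- small families in a successor cardinal are bounded -/
theorem bdd_succ {A : Type} {κ : Cardinal.{0}} (hκ : ℵ₀ ≤ κ) (hA : #A ≤ κ)
    (f : A → (Order.succ κ).ord.ToType) : ∃ β, ∀ k, f k < β := by
  by_contra hcon
  push Not at hcon
  have h1 : (Set.univ : Set (Order.succ κ).ord.ToType) = ⋃ k, Set.Iic (f k) := by
    ext β
    simp only [Set.mem_univ, Set.mem_iUnion, Set.mem_Iic, true_iff]
    exact hcon β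
  have h2 : ∀ k, #(Set.Iic (f k)) ≤ κ := by
    intro k
    have h30 : #(Set.Iio (f k)) < Order.succ κ := Cardinal.mk_Iio_toType_ord_lt (f k)
    have h3 : #(Set.Iio (f k)) ≤ κ := Order.lt_succ_iff.1 h30
    have h4 : Set.Iic (f k) = insert (f k) (Set.Iio (f k)) := by
      ext β
      simp only [Set.mem_Iic, Set.mem_insert_iff, Set.mem_Iio]
      exact le_iff_eq_or_lt
    rw [h4]
    refine (Cardinal.mk_insert_le).trans ?_
    exact (add_le_add h3 (Cardinal.one_le_aleph0.trans hκ)).trans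
      (Cardinal.add_eq_self hκ).le
  have h3 : Order.succ κ ≤ κ := by
    rw [← Cardinal.mk_ord_toType (Order.succ κ), ← Cardinal.mk_univ, h1]
    refine (Cardinal.mk_iUnion_le _).trans ?_
    calc #A * _ ≤ κ * κ := mul_le_mul' hA (ciSup_le' h2)
      _ = κ := Cardinal.mul_eq_self hκ
  exact absurd h3 (not_le.2 (Order.lt_succ _))

/-- **The forcing theorem.** -/
theorem exists_forcing (K : Code H F) (R : Type) :
    ∃ (T P : Type) (_ : Preorder P), Nonempty (R ↪ T) ∧ Nonempty P ∧
      (∀ A : Set P, (∀ p ∈ A, ∀ q ∈ A, p ≠ q → ¬ ∃ r, r ≤ p ∧ r ≤ q) → A.Countable) ∧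
      ∀ p : P, p ∈ PhiHolds P F H.G T := by
  let T0 : Type := R ⊕ Set ℕ
  let T : Type := (Order.succ #T0).ord.ToType
  let C : Type := Set T
  let Λ : Type := Set C
  have hinf : Infinite T0 := Infinite.of_injective (Sum.inr : Set ℕ → T0) Sum.inr_injective
  have hT0 : ℵ₀ ≤ #T0 := Cardinal.aleph0_le_mk T0
  have hTc : #T = Order.succ #T0 := Cardinal.mk_ord_toType _
  have hTT : #T0 ≤ #T := by rw [hTc]; exact (Order.lt_succ _).le
  have hT : ℵ₀ ≤ #T := hT0.trans hTT
  have hCc : #C = 2 ^ #T := Cardinal.mk_set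
  have hTC : #T < #C := by
    rw [hCc]
    exact Cardinal.cantor _
  have hC : ℵ₀ ≤ #C := hT.trans hTC.le
  have hΛc : #Λ = 2 ^ #C := Cardinal.mk_set
  have hCΛ : #C < #Λ := by
    rw [hΛc]
    exact Cardinal.cantor _
  have hΛ : ℵ₀ ≤ #Λ := hC.trans hCΛ.le
  have hpow : #Λ ^ ℵ₀ = #Λ := by
    rw [hΛc, ← Cardinal.power_mul, Cardinal.mul_eq_left hC hC Cardinal.aleph0_ne_zero]
  have hI : #(Ix T C) ≤ #Λ := mk_Ix hΛ (hTC.le.trans hCΛ.le) hCΛ.le
  have hN : #(Nm H Λ T C) ≤ #Λ := mk_Nm hΛ hpow le_rfl hI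
  obtain ⟨code⟩ := hN
  have hι : Nonempty (R ↪ T) := by
    rw [← Cardinal.le_def]
    refine le_trans ?_ hTT
    rw [Cardinal.mk_sum, Cardinal.lift_id, Cardinal.lift_id]
    exact le_self_add
  refine ⟨T, PP (GB (H := H) (T := T) (C := C) code), inferInstance, hι,
    ⟨(Cond.one : Cond H Λ T C)⟩, ?_, ?_⟩
  · intro A hA
    by_contra hcon
    obtain ⟨p, hp, q, hq, hne, r, h1, h2⟩ := ccc (Γ := GB (H := H) (T := T) (C := C) code) A hcon
    exact hA p hp q hq hne ⟨r, h1, h2⟩
  · refine forcing_of_card K ?_ ?_ code code.injective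
    · intro S hS
      have h1 : #S ≤ #T0 := (Cardinal.mk_le_aleph0_iff.2 hS.to_subtype).trans hT0
      obtain ⟨β, hβ⟩ := bdd_succ hT0 h1 (fun s : S => (s : T))
      exact ⟨β, fun t ht => hβ ⟨t, ht⟩⟩
    · intro A hA
      by_contra hcon
      push Not at hcon
      have h1 : (Set.univ : Set C) = ⋃ l, A l := by
        ext c
        simp only [Set.mem_univ, Set.mem_iUnion, true_iff]
        exact hcon c
      have h2 : #C ≤ #T := by
        rw [← Cardinal.mk_univ, h1]
        refine (Cardinal.mk_iUnion_le _).trans ?_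
        calc #T * _ ≤ #T * ℵ₀ := by
              apply mul_le_mul_right
              apply ciSup_le'
              intro z
              exact Cardinal.mk_le_aleph0_iff.2 (hA z).to_subtype
          _ = #T := Cardinal.mul_aleph0_eq hT
      exact absurd h2 (not_le.2 hTC)

theorem HH_G (hF : ∀ n, 2 ≤ F n) : (HH hF).G = GG F := rfl

/-- the forcing theorem for `F` and `GG F` -/
theorem exists_forcing' (hF : ∀ n, 2 ≤ F n) (hm : Monotone F) (R : Type) :
    ∃ (T P : Type) (_ : Preorder P), Nonempty (R ↪ T) ∧ Nonempty P ∧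
      (∀ A : Set P, (∀ p ∈ A, ∀ q ∈ A, p ≠ q → ¬ ∃ r, r ≤ p ∧ r ≤ q) → A.Countable) ∧
      ∀ p : P, p ∈ PhiHolds P F (GG F) T := by
  have h := exists_forcing (KK hF hm) R
  rw [HH_G hF] at h
  exact h

end Pool.Agent.H631.ED
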