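import Pool.Agent.H631.ED.Basic
import Pool.Graph.R_seed8.Helper126.Fact

/-!
# Longer stems, and the countable chain condition
-/

set_option autoImplicit false
set_option linter.unusedSectionVars false

namespace Pool.Agent.H631.ED

open Classical

variable {H : Hit} {M T C : Type} [LinearOrder T] [WellFoundedLT T] {Γ : Par H M T C}

/-- the name in a requirement -/
def xOf (z : Option (Nm H M T C)) : Nm H M T C :=
  match z with
  | some x => x
  | none => fun _ _ => none

theorem getD_append_map {s : List ℕ} {N i : ℕ} (f : ℕ → ℕ) (h1 : s.length ≤ i)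
    (h2 : i < s.length + N) : (s ++ (List.range N).map f).getD i 0 = f (i - s.length) := by
  rw [List.getD_append_right _ _ _ _ h1, List.getD_eq_getElem _ _ (by simp; omega)]
  simp

theorem ext_exact (Γ : Par H M T C) (j : Ix T C) (N : ℕ) (p : Cond H M T C)
    (hN : (p j).stem.length ≤ N) :
    ∃ p', le Γ Set.univ p' p ∧ (p' j).stem.length = N ∧ (p' j).pr = (p j).pr ∧
      ∀ i, ¬ Ix.lt i j → i ≠ j → p' i = p i := by
  set S : Set (Ix T C) := below j with hSdef
  have hS : Low S := low_below _
  have hjS : j ∉ S := not_lt_self j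
  obtain ⟨t, htp, htd⟩ := Val.decideF (Γ := Γ) hS ((p j).pr ×ˢ Finset.range N)
    (fun z : M × ℕ => xOf (reqOf Γ j z.1)) (fun z => z.2) p
  have hdec : ∀ m i, ∃ v, m ∈ (p j).pr → i < N → Val (le Γ S) t (xOf (reqOf Γ j m)) i v := by
    intro m i
    by_cases h : m ∈ (p j).pr ∧ i < N
    · obtain ⟨v, hv⟩ := htd (m, i) (Finset.mem_product.2 ⟨h.1, Finset.mem_range.2 h.2⟩)
      exact ⟨v, fun _ _ => hv⟩
    · exact ⟨0, fun h1 h2 => absurd ⟨h1, h2⟩ h⟩
  choose val hval using hdec
  have hch : ∀ i, ∃ v, (p j).stem.length ≤ i →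
      v < H.G i ∧ v ∉ (p j).pr.image (fun m => val m i) := by
    intro i
    by_cases hi : (p j).stem.length ≤ i
    · have h1 : ((p j).pr.image fun m => val m i).card < (Finset.range (H.G i)).card := by
        rw [Finset.card_range]
        exact Finset.card_image_le.trans_lt (((p.legit j).1).trans_le (H.mono hi))
      obtain ⟨v, hv, hv'⟩ := Finset.exists_mem_notMem_of_card_lt_card h1
      exact ⟨v, fun _ => ⟨Finset.mem_range.1 hv, hv'⟩⟩
    · exact ⟨0, fun h => absurd h hi⟩
  choose v hv using hch
  set s := (p j).stem with hs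
  let st : List ℕ := s ++ (List.range (N - s.length)).map fun i => v (s.length + i)
  have hstlen : st.length = N := by
    simp only [st, List.length_append, List.length_map, List.length_range]
    omega
  have hst1 : ∀ i < s.length, st.getD i 0 = s.getD i 0 := by
    intro i hi
    exact List.getD_append _ _ _ _ hi
  have hst2 : ∀ i, s.length ≤ i → i < N → st.getD i 0 = v i := by
    intro i hi hi'
    have h1 : st.getD i 0 = v (s.length + (i - s.length)) := getD_append_map _ hi (by omega)
    rw [h1]
    congr 1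
    omega
  have hleg : Legit H j (⟨st, (p j).pr⟩ : CV M) := by
    refine ⟨?_, fun t' ht' n hn => ?_, (p.legit j).2.2⟩
    · show (p j).pr.card < H.G st.length
      rw [hstlen]
      exact (p.legit j).1.trans_le (H.mono hN)
    · have hn' : n < N := by rw [← hstlen]; exact hn
      show st.getD n 0 < H.G n
      by_cases h : n < s.length
      · rw [hst1 n h]
        exact (p.legit j).2.1 t' ht' n h
      · rw [hst2 n (not_lt.1 h) hn']
        exact (hv n (not_lt.1 h)).1
  let p1 : Cond H M T C := mix S t p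
  let p' : Cond H M T C := upd p1 j ⟨st, (p j).pr⟩ hleg
  have hp'j : p' j = ⟨st, (p j).pr⟩ := upd_same p1 j _ hleg
  have hp'S : ∀ i ∈ S, p' i = t i := by
    intro i hi
    have hne : i ≠ j := fun h => hjS (h ▸ hi)
    rw [upd_of_ne p1 _ hleg hne]
    exact mix_mem t p hi
  have hp'o : ∀ i, i ∉ S → i ≠ j → p' i = p i := by
    intro i hi hne
    rw [upd_of_ne p1 _ hleg hne]
    exact mix_notMem t p hi
  refine ⟨p', ?_, ?_, ?_, hp'o⟩
  · intro i _
    by_cases hi : i ∈ S
    · exact ext_congr i (fun l hl => (hp'S l (hS i hi l hl)).symm) (hp'S i hi).symm rfl (htp i hi)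
    · by_cases hij : i = j
      · subst hij
        rw [ext_iff, hp'j]
        refine ⟨List.prefix_append _ _, Finset.Subset.refl _, ?_⟩
        intro k hk x hx m hm hm' t' ht' n hn
        have hm2 : m < N := by rw [← hstlen]; exact hm'
        have htt : le Γ S t' t := le_trans' hS ht'
          (le_congr hS (fun l hl => (hp'S l hl).symm) (fun _ _ => rfl) (le_refl' S t))
        have h1 : Val (le Γ S) t' x m (val k m) := by
          have := (hval k m hk hm2).mono hS htt
          rwa [hx] at this
        have h2 : n = val k m := Val.unique hn h1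
        show st.getD m 0 ≠ n
        rw [hst2 m hm hm2, h2]
        intro h3
        exact (hv m hm).2 (by rw [h3]; exact Finset.mem_image_of_mem (fun m' => val m' m) hk)
      · exact ext_of_eq (hp'o i hi hij)
  · rw [hp'j]
    exact hstlen
  · rw [hp'j]

/-- conditions with few promises -/
def GoodAt (p : Cond H M T C) (i : Ix T C) : Prop := 2 * (p i).pr.card < H.G (p i).stem.length

theorem good_cc (p : Cond H M T C) (c : C) : GoodAt p (.cc c) := by
  unfold GoodAt
  rw [(p.legit (.cc c)).2.2 c rfl]
  simpa using H.pos _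

/-- good conditions are dense, below `A` -/
def GD (Γ : Par H M T C) (A : Set T) : Prop :=
  ∀ p : Cond H M T C, ∃ p', le Γ Set.univ p' p ∧ (∀ t, t ∉ A → p' (.ed t) = p (.ed t)) ∧
    ∀ t ∈ A, GoodAt p' (.ed t)

theorem supp_ed_finite (p : Cond H M T C) : {t | p (.ed t) ≠ CV.top}.Finite := by
  have h1 : Function.Injective (fun t : T => (Ix.ed t : Ix T C)) := fun a b h => by simpa using h
  exact Set.Finite.preimage h1.injOn p.2.1

theorem gd_step {A : Set T} (hA : ∀ t ∈ A, ∀ t' < t, t' ∈ A)
    (ih : ∀ t ∈ A, GD Γ (Set.Iio t)) : GD Γ A := by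
  intro p
  have hfin : {t | t ∈ A ∧ p (.ed t) ≠ CV.top}.Finite :=
    (supp_ed_finite p).subset fun t ht => ht.2
  by_cases hne : hfin.toFinset.Nonempty
  · set t1 := hfin.toFinset.max' hne with ht1
    have h1 : t1 ∈ A ∧ p (.ed t1) ≠ CV.top := by
      have := Finset.max'_mem _ hne
      rw [Set.Finite.mem_toFinset] at this
      exact this
    have hmax : ∀ t ∈ A, t1 < t → p (.ed t) = CV.top := by
      intro t ht hlt
      by_contra hcon
      have := Finset.le_max' hfin.toFinset t (by
        rw [Set.Finite.mem_toFinset]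
        exact ⟨ht, hcon⟩)
      exact absurd hlt (not_lt.2 this)
    obtain ⟨p1, hp1, hlen, hpr, hoth⟩ := ext_exact Γ (.ed t1)
      (max (p (.ed t1)).stem.length (2 * (p (.ed t1)).pr.card)) p (le_max_left _ _)
    obtain ⟨p2, hp2, ho2, hg2⟩ := ih t1 h1.1 p1
    refine ⟨p2, le_trans' low_univ hp2 hp1, fun t ht => ?_, fun t ht => ?_⟩
    · have h2 : t ∉ Set.Iio t1 := fun h => ht (hA t1 h1.1 t h)
      rw [ho2 t h2]
      exact hoth _ (fun h => h2 h) (fun h => ht (by
        have : t = t1 := by simpa using h
        rw [this]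
        exact h1.1))
    · rcases lt_trichotomy t t1 with h | h | h
      · exact hg2 t h
      · unfold GoodAt
        rw [ho2 t (by rw [h]; exact lt_irrefl t1), h, hlen, hpr]
        exact lt_of_le_of_lt (le_max_right _ _) (H.lt _)
      · unfold GoodAt
        have h3 : p1 (.ed t) = p (.ed t) := hoth (.ed t)
          (fun h' => absurd h (not_lt.2 (le_of_lt (show t < t1 from h'))))
          (fun h' => by
            have : t = t1 := by simpa using h'
            rw [this] at h
            exact lt_irrefl _ h)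
        rw [ho2 t (by exact not_lt.2 h.le), h3, hmax t ht h]
        simpa using H.pos 0
  · refine ⟨p, le_refl' _ p, fun _ _ => rfl, fun t ht => ?_⟩
    have h1 : p (.ed t) = CV.top := by
      by_contra hcon
      exact hne ⟨t, by rw [Set.Finite.mem_toFinset]; exact ⟨ht, hcon⟩⟩
    unfold GoodAt
    rw [h1]
    simpa using H.pos 0

theorem gd_iio (t : T) : GD Γ (Set.Iio t) := by
  induction t using WellFoundedLT.induction with
  | ind t ih => exact gd_step (fun a ha b hb => lt_trans hb ha) fun a ha => ih a ha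

theorem good_dense (p : Cond H M T C) : ∃ p', le Γ Set.univ p' p ∧ ∀ i, GoodAt p' i := by
  obtain ⟨p', h1, -, h2⟩ := gd_step (Γ := Γ) (A := Set.univ) (fun _ _ _ _ => Set.mem_univ _)
    (fun t _ => gd_iio t) p
  refine ⟨p', h1, fun i => ?_⟩
  rcases i with t | c
  · exact h2 t (Set.mem_univ _)
  · exact good_cc p' c

/-! ### The countable chain condition -/

theorem uncountable_fiber {α β : Type} [Countable β] {A : Set α} (hA : ¬ A.Countable)
    (g : α → β) : ∃ b, ¬ {a ∈ A | g a = b}.Countable := by
  by_contra hcon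
  push Not at hcon
  apply hA
  refine (Set.countable_iUnion hcon).mono fun a ha => ?_
  exact Set.mem_iUnion.2 ⟨g a, ha, rfl⟩

theorem fanset {α : Type} {A : Set α} (hA : ¬ A.Countable) (p : α → Cond H M T C) :
    ∃ (A' : Set α) (R : Finset (Ix T C)), A' ⊆ A ∧ ¬ A'.Countable ∧
      (∀ a ∈ A', ∀ b ∈ A', a ≠ b → ∀ i ∉ R, p a i = CV.top ∨ p b i = CV.top) ∧
      ∀ a ∈ A', ∀ b ∈ A', ∀ i ∈ R, (p a i).stem = (p b i).stem := by
  obtain ⟨A1, R, hA1A, hA1, -, hd1⟩ := Helper126.delta_system (fun a => (p a).supp) A hA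
  obtain ⟨st, hA2⟩ := uncountable_fiber hA1 (fun a => fun j : R => (p a j.1).stem)
  refine ⟨{a ∈ A1 | (fun j : R => (p a j.1).stem) = st}, R, fun a ha => hA1A ha.1, hA2,
    ?_, ?_⟩
  · intro a ha b hb hab i hi
    by_contra hcon
    push Not at hcon
    exact hi (hd1 a ha.1 b hb.1 hab i (Cond.mem_supp.2 hcon.1) (Cond.mem_supp.2 hcon.2))
  · intro a ha b hb j hj
    exact (congrFun ha.2 ⟨j, hj⟩).trans (congrFun hb.2 ⟨j, hj⟩).symm

/-- the countable chain condition -/
def CCC (Γ : Par H M T C) : Prop :=
  ∀ A : Set (Cond H M T C), ¬ A.Countable → ∃ p ∈ A, ∃ q ∈ A, p ≠ q ∧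
    ∃ r, le Γ Set.univ r p ∧ le Γ Set.univ r q

theorem ccc : CCC Γ := by
  intro A hA
  choose g hg1 hg2 using fun p : Cond H M T C => good_dense (Γ := Γ) p
  obtain ⟨A', R, hA'A, hA', h1, h2⟩ := fanset hA g
  have hnt : A'.Nontrivial := by
    by_contra hcon
    exact hA' (Set.not_nontrivial_iff.1 hcon).countable
  obtain ⟨a, ha, b, hb, hab⟩ := hnt
  refine ⟨a, hA'A ha, b, hA'A hb, hab, ?_⟩
  let f : Ix T C → CV M := fun i => if i ∈ R then ⟨(g a i).stem, (g a i).pr ∪ (g b i).pr⟩ else
    if g a i = CV.top then g b i else g a i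
  have hf1 : ∀ i ∈ R, f i = ⟨(g a i).stem, (g a i).pr ∪ (g b i).pr⟩ := fun i hi => if_pos hi
  have hf2 : ∀ i ∉ R, f i = if g a i = CV.top then g b i else g a i := fun i hi => if_neg hi
  have hfin : {i | f i ≠ CV.top}.Finite := by
    refine ((Finset.finite_toSet R).union ((g a).2.1.union (g b).2.1)).subset ?_
    intro i hi
    by_cases hR : i ∈ R
    · exact Or.inl hR
    · refine Or.inr ?_
      by_cases h : g a i = CV.top
      · refine Or.inr ?_
        rw [Set.mem_ofPred_eq, hf2 i hR, if_pos h] at hi
        exact hi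
      · exact Or.inl h
  have hleg : ∀ i, Legit H i (f i) := by
    intro i
    by_cases hR : i ∈ R
    · rw [hf1 i hR]
      refine ⟨?_, ((g a).legit i).2.1, fun c hc => ?_⟩
      · have h3 := hg2 a i
        have h4 := hg2 b i
        unfold GoodAt at h3 h4
        rw [← h2 a ha b hb i hR] at h4
        have h5 := Finset.card_union_le (g a i).pr (g b i).pr
        show ((g a i).pr ∪ (g b i).pr).card < H.G (g a i).stem.length
        omega
      · show (g a i).pr ∪ (g b i).pr = ∅
        rw [((g a).legit i).2.2 c hc, ((g b).legit i).2.2 c hc]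
        rfl
    · rw [hf2 i hR]
      split_ifs
      · exact (g b).legit i
      · exact (g a).legit i
  refine ⟨⟨f, hfin, hleg⟩, le_trans' low_univ (fun i _ => ?_) (hg1 a),
    le_trans' low_univ (fun i _ => ?_) (hg1 b)⟩
  · by_cases hR : i ∈ R
    · refine ext_same_stem ?_ ?_
      · show (g a i).stem = (f i).stem
        rw [hf1 i hR]
      · show (g a i).pr ⊆ (f i).pr
        rw [hf1 i hR]
        exact Finset.subset_union_left
    · by_cases h : g a i = CV.top
      · exact ext_top h
      · refine ext_of_eq ?_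
        show f i = g a i
        rw [hf2 i hR, if_neg h]
  · by_cases hR : i ∈ R
    · refine ext_same_stem ?_ ?_
      · show (g b i).stem = (f i).stem
        rw [hf1 i hR]
        exact (h2 a ha b hb i hR).symm
      · show (g b i).pr ⊆ (f i).pr
        rw [hf1 i hR]
        exact Finset.subset_union_right
    · by_cases h : g a i = CV.top
      · refine ext_of_eq ?_
        show f i = g b i
        rw [hf2 i hR, if_pos h]
      · exact ext_top ((h1 a ha b hb hab i hR).resolve_left h)

end Pool.Agent.H631.ED
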