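import Pool.Agent.H631.ED.Basic
import Pool.Graph.R_seed8.Helper669.Forcing

/-!
# The preorder of the conditions, the sentence which is forced
-/

set_option autoImplicit false
set_option linter.unusedSectionVars false

namespace Pool.Agent.H631.ED

open Classical Pool.Agent.Helper669.Forcing

/-! ### The combinatorial statement -/

/-- There is a family of functions `y t`, `t : T`, bounded by `G`, such that every function `x` is
eventually different from some `y t`. -/
def SmallFam (G : ℕ → ℕ) (T : Type) : Prop :=
  ∃ y : T → ℕ → ℕ, (∀ t, ∀ n, ∃ v, v < G n ∧ y t n = v) ∧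
    ∀ x : ℕ → ℕ, ∃ t, ∃ N, ∀ n, N ≤ n → ¬ ∃ v, x n = v ∧ y t n = v

/-- For every family of functions `y t`, `t : T`, bounded by `F`, some function `x` is infinitely
often equal to every `y t`. -/
def LargeFam (F : ℕ → ℕ) (T : Type) : Prop :=
  ∀ y : T → ℕ → ℕ, (∀ t, ∀ n, ∃ v, v < F n ∧ y t n = v) →
    ∃ x : ℕ → ℕ, ∀ t, ∀ N, ∃ n, N ≤ n ∧ ∃ v, x n = v ∧ y t n = v

/-- The combinatorial statement which is forced. -/
def PhiFor (F G : ℕ → ℕ) (T : Type) : Prop := SmallFam G T ∧ LargeFam F T

/-! ### The sentence of the forcing language -/

section Sentence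

/-- Forcing version of `SmallFam`; functions are given by names of their graphs. -/
def SmallFamN (P : Type) [Preorder P] (G : ℕ → ℕ) (T : Type) : Set P :=
  fex fun y : T → ℕ → ℕ → Set P => fand (fall fun t => IsFun (y t))
    (fand (fall fun t => fall fun n => fex fun v => fand (fground (v < G n)) (meets (y t n v)))
      (fall fun x : ℕ → ℕ → Set P => fimp (IsFun x)
        (fex fun t => fex fun N => fall fun n => fimp (fground (N ≤ n))
          (fnot (fex fun v => fand (meets (x n v)) (meets (y t n v)))))))

/-- Forcing version of `LargeFam`. -/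
def LargeFamN (P : Type) [Preorder P] (F : ℕ → ℕ) (T : Type) : Set P :=
  fall fun y : T → ℕ → ℕ → Set P => fimp (fall fun t => IsFun (y t))
    (fimp (fall fun t => fall fun n => fex fun v => fand (fground (v < F n)) (meets (y t n v)))
      (fex fun x : ℕ → ℕ → Set P => fand (IsFun x)
        (fall fun t => fall fun N => fex fun n => fand (fground (N ≤ n))
          (fex fun v => fand (meets (x n v)) (meets (y t n v))))))

/-- The sentence `PhiFor F G T` of the forcing language. -/
def PhiHolds (P : Type) [Preorder P] (F G : ℕ → ℕ) (T : Type) : Set P :=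
  fand (SmallFamN P G T) (LargeFamN P F T)

end Sentence

/-! ### The preorder of the conditions -/

variable {H : Hit} {M T C : Type} [LinearOrder T] [WellFoundedLT T]

/-- the conditions, with the order given by the parameters -/
def PP (_Γ : Par H M T C) : Type := Cond H M T C

variable {Γ : Par H M T C}

/-- an element of `PP Γ` as a condition -/
abbrev PP.toC (r : PP Γ) : Cond H M T C := r

noncomputable instance : Preorder (PP Γ) where
  le q p := le Γ Set.univ q p
  le_refl p := le_refl' Set.univ p
  le_trans _ _ _ h1 h2 := le_trans' low_univ h1 h2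

theorem PP.le_def {q p : PP Γ} : q ≤ p ↔ le Γ Set.univ q p := Iff.rfl

end Pool.Agent.H631.ED
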