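import Pool.Agent.H631.ED.Reduce2
import Pool.Agent.H631.ED.Frame

/-!
# The statements which are forced
-/

set_option autoImplicit false
set_option linter.unusedSectionVars false

namespace Pool.Agent.H631.ED

open Classical Pool.Agent.Helper669.Forcing

variable {H : Hit} {M T C : Type} [LinearOrder T] [WellFoundedLT T] {Γ : Par H M T C}

/-- names for functions can be replaced by raw names -/
theorem rawF (x : ℕ → ℕ → Set (PP Γ)) (p : PP Γ)
    (hp : p ∈ IsFun x) : ∃ X : Nm H M T C, ∀ q : PP Γ, q ≤ p → ∀ n v,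
      Val (le Γ Set.univ) q X n v → q ∈ meets (x n v) := by
  let φ : ℕ → Set (Cond H M T C) := fun n =>
    {q | le Γ Set.univ q p.toC ∧ ∃ v, (q : PP Γ) ∈ meets (x n v)}
  choose g hg1 hg2 using fun n => exists_predense (Γ := Γ) ccc (φ n)
  let val : ℕ → Cond H M T C → ℕ := fun n u =>
    if h : ∃ v, (u : PP Γ) ∈ meets (x n v) then Classical.choose h else 0
  have hval : ∀ n (u : Cond H M T C), (∃ v, (u : PP Γ) ∈ meets (x n v)) →
      (u : PP Γ) ∈ meets (x n (val n u)) := by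
    intro n u h
    simp only [val, dif_pos h]
    exact Classical.choose_spec h
  refine ⟨fun n m => (g n m).map fun u => (u, val n u), ?_⟩
  intro q hq n v hv
  rcases hv with ⟨m, u, h1, h2, _⟩ | ⟨_, h2⟩
  · obtain ⟨u', hu', he⟩ := Option.map_eq_some_iff.1 h1
    have h3 : u' = u := (Prod.mk.inj he).1
    have h4 : val n u' = v := (Prod.mk.inj he).2
    rw [h3] at hu' h4
    have h5 : u ∈ φ n := hg1 n m u hu'
    have h6 := hval n u h5.2
    rw [h4] at h6
    exact down_meets (P := PP Γ) _ u h6 q h2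
  · exfalso
    obtain ⟨r, hr, v', hv'⟩ := IsFun.total (down_IsFun x p hp q hq) n
    have h3 : r.toC ∈ φ n := ⟨(hr.trans hq : r ≤ p), v', hv'⟩
    obtain ⟨m, a, hm, s, hs, hs'⟩ := hg2 n r.toC h3
    refine h2 m a (val n a) ?_ ⟨s, ?_, hs'⟩
    · show (g n m).map _ = _
      rw [hm]
      rfl
    · exact le_trans' low_univ hs hr

theorem getD_eq_of_common {a b c : Cond H M T C} {j : Ix T C} {n : ℕ} (h1 : le Γ Set.univ c a)
    (h2 : le Γ Set.univ c b) (ha : n < (a j).stem.length) (hb : n < (b j).stem.length) :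
    (a j).stem.getD n 0 = (b j).stem.getD n 0 := by
  rw [← getD_prefix (ext_stem (h1 j (Set.mem_univ _))) ha,
    ← getD_prefix (ext_stem (h2 j (Set.mem_univ _))) hb]

theorem length_le {a c : Cond H M T C} (j : Ix T C) (h : le Γ Set.univ c a) :
    (a j).stem.length ≤ (c j).stem.length := (ext_stem (h j (Set.mem_univ _))).length_le

/-- the name of a function computed from the generic function with the coordinate `j`: the value
at `m` is `dv m a`, where `a` is the value of the generic function at `bl m` -/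
def coh (Γ : Par H M T C) (bl : ℕ → ℕ) (dv : ℕ → ℕ → ℕ) (j : Ix T C) : ℕ → ℕ → Set (PP Γ) :=
  fun m b => {r | bl m < (PP.toC r j).stem.length ∧ dv m ((PP.toC r j).stem.getD (bl m) 0) = b}

theorem coh_isFun (bl : ℕ → ℕ) (dv : ℕ → ℕ → ℕ) (j : Ix T C) (p : PP Γ) :
    p ∈ IsFun (coh Γ bl dv j) := by
  refine ⟨fun n => ?_, fun n v v' => ?_⟩
  · refine mem_fex.2 fun r hr => ?_
    obtain ⟨r', hr', hlen, -⟩ := ext_exact Γ j (max ((PP.toC r) j).stem.length (bl n + 1))
      (PP.toC r) (le_max_left _ _)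
    refine ⟨(r' : PP Γ), hr', dv n ((r' j).stem.getD (bl n) 0), ?_⟩
    refine meets_of_mem (P := PP Γ) (N := coh Γ bl dv j n _) (p := r') ⟨?_, rfl⟩
    show bl n < (r' j).stem.length
    rw [hlen]
    exact lt_of_lt_of_le (Nat.lt_succ_self _) (le_max_right _ _)
  · refine mem_fimp.2 fun r hr h => ⟨r, le_rfl, ?_⟩
    obtain ⟨s, hs, z, hz, hsz⟩ := h.1 r le_rfl
    obtain ⟨s', hs', z', hz', hsz'⟩ := h.2 s hs
    have h1 : le Γ Set.univ (PP.toC s') (PP.toC z) := hs'.trans hsz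
    have h2 : le Γ Set.univ (PP.toC s') (PP.toC z') := hsz'
    show v = v'
    rw [← hz.2, ← hz'.2, getD_eq_of_common h1 h2 hz.1 hz'.1]

/-- the name of the generic function with the coordinate `ed t` -/
def gen (Γ : Par H M T C) (t : T) : ℕ → ℕ → Set (PP Γ) := coh Γ (fun n => n) (fun _ a => a) (.ed t)

theorem gen_bdd (t : T) (n : ℕ) (p : PP Γ) :
    p ∈ fex fun v => fand (fground (v < H.G n)) (meets (gen Γ t n v)) := by
  refine mem_fex.2 fun r hr => ?_
  obtain ⟨r', hr', hlen, -⟩ := ext_exact Γ (.ed t)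
    (max ((PP.toC r) (.ed t)).stem.length (n + 1)) (PP.toC r) (le_max_left _ _)
  have hn : n < (r' (.ed t)).stem.length := by
    rw [hlen]
    exact lt_of_lt_of_le (Nat.lt_succ_self _) (le_max_right _ _)
  refine ⟨(r' : PP Γ), hr', (r' (.ed t)).stem.getD n 0, ?_, ?_⟩
  · exact (r'.legit (.ed t)).2.1 t rfl n hn
  · exact meets_of_mem (P := PP Γ) (N := gen Γ t n _) (p := r') ⟨hn, rfl⟩

/-- `X` is a raw name for the function named by `x`, below `q` -/
def RawOf (Γ : Par H M T C) (q : PP Γ) (X : Nm H M T C) (x : ℕ → ℕ → Set (PP Γ)) : Prop :=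
  ∀ q' : PP Γ, q' ≤ q → ∀ n v, Val (le Γ Set.univ) q' X n v → q' ∈ meets (x n v)

theorem RawOf.mono {q q1 : PP Γ} {X : Nm H M T C} {x : ℕ → ℕ → Set (PP Γ)} (h : RawOf Γ q X x)
    (hq : q1 ≤ q) : RawOf Γ q1 X x := fun q' hq' n v hv => h q' (hq'.trans hq) n v hv

theorem exists_raw {x : ℕ → ℕ → Set (PP Γ)} {q : PP Γ} (hq : q ∈ IsFun x) :
    ∃ X : Nm H M T C, RawOf Γ q X x := rawF x q hq

theorem low_ed (t : T) : Low (below (.ed t : Ix T C)) := low_below _

/-- the generic function at `ed t` is eventually different from the functions named in the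
requirements -/
theorem evDiff {t : T} {m : M} {X : Nm H M T C} (hreq : Γ t m = some X)
    (hX : Supp (below (.ed t)) X) {x : ℕ → ℕ → Set (PP Γ)} {q : PP Γ} (hx : q ∈ IsFun x)
    (hq : RawOf Γ q X x) :
    q ∈ fex fun N => fall fun n => fimp (fground (N ≤ n))
      (fnot (fex fun v => fand (meets (x n v)) (meets (gen Γ t n v)))) := by
  refine mem_fex.2 fun r hr => ?_
  set j : Ix T C := .ed t with hj
  obtain ⟨r', hr', hlen, hpr, -⟩ := ext_exact Γ j
    (max ((PP.toC r) j).stem.length (((PP.toC r) j).pr.card + 1)) (PP.toC r) (le_max_left _ _)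
  have hleg : Legit H j (⟨(r' j).stem, insert m (r' j).pr⟩ : CV M) := by
    refine ⟨?_, (r'.legit j).2.1, fun c hc => by simp [hj] at hc⟩
    refine (Finset.card_insert_le _ _).trans_lt ?_
    rw [hpr]
    show _ < H.G (r' j).stem.length
    rw [hlen]
    exact lt_of_le_of_lt (le_max_right _ _) (H.lt _)
  let r1 : Cond H M T C := upd r' j ⟨(r' j).stem, insert m (r' j).pr⟩ hleg
  have hr1j : r1 j = ⟨(r' j).stem, insert m (r' j).pr⟩ := upd_same _ _ _ _
  have hr1 : le Γ Set.univ r1 r' := by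
    intro i _
    by_cases hi : i = j
    · rw [hi]
      exact ext_same_stem (by rw [hr1j]) (by rw [hr1j]; exact Finset.subset_insert _ _)
    · exact ext_of_eq (upd_of_ne _ _ _ hi)
  have hr1r : (@LE.le (PP Γ) _ r1 r) := le_trans' low_univ hr1 hr'
  refine ⟨r1, hr1r, (r1 j).stem.length, fun n => ?_⟩
  refine mem_fimp.2 fun R2 hR2 hn => ⟨R2, le_rfl, ?_⟩
  have hn' : (r1 j).stem.length ≤ n := hn
  intro s hs hcon
  obtain ⟨u, hu, v, hv1, hv2⟩ := mem_fex.1 hcon s le_rfl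
  obtain ⟨w, hw, z, hz, hwz⟩ := hv2 u le_rfl
  obtain ⟨w', hw', v', hv'⟩ := Val.dense (Γ := Γ) low_univ (PP.toC w) X n
  have hw'w : (@LE.le (PP Γ) _ w' w) := hw'
  have hw'r1 : (@LE.le (PP Γ) _ w' r1) := hw'w.trans (hw.trans (hu.trans (hs.trans hR2)))
  have hw'q : (@LE.le (PP Γ) _ w' q) := hw'r1.trans (hr1r.trans hr)
  have hw'z : le Γ Set.univ w' (PP.toC z) := hw'w.trans hwz
  have hlw : n < (w' j).stem.length := lt_of_lt_of_le hz.1 (length_le j hw'z)
  have hgw : (w' j).stem.getD n 0 = v := by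
    rw [getD_prefix (ext_stem (hw'z j (Set.mem_univ _))) hz.1]
    exact hz.2
  have h1 : w' ∈ meets (x n v') := hq w' hw'q _ _ hv'
  have h2 : w' ∈ meets (x n v) := down_meets _ _ hv1 _ (hw'w.trans hw)
  have h3 : v' = v := IsFun.unique (down_IsFun x _ hx _ hw'q) h1 h2
  have h4 : ext Γ j w' r1 := hw'r1 j (Set.mem_univ _)
  rw [ext_iff] at h4
  refine h4.2.2 m (by rw [hr1j]; exact Finset.mem_insert_self _ _) X hreq n hn' hlw w'
    (le_refl' _ _) v' ?_ ?_
  · exact (Val.iff_of_supp (low_below _) (Set.subset_univ _) hX).1 hv'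
  · rw [hgw, h3]

theorem smallFam (hs : ∀ X : Nm H M T C, ∃ t : T, Supp (below (.ed t)) X ∧
    ∃ m, Γ t m = some X) (p : PP Γ) : p ∈ SmallFamN (PP Γ) H.G T := by
  refine mem_fex.2 fun p1 _ => ⟨p1, le_rfl, fun t => gen Γ t, fun t => coh_isFun _ _ _ _,
    fun t n => gen_bdd t n p1, fun x => ?_⟩
  refine mem_fimp.2 fun q _ hx => ⟨q, le_rfl, ?_⟩
  obtain ⟨X, hX⟩ := exists_raw hx
  obtain ⟨t, h1, m, h2⟩ := hs X
  refine mem_fex.2 fun r hr => ⟨r, le_rfl, t, ?_⟩
  exact evDiff h2 h1 (down_IsFun _ _ hx _ hr) (hX.mono hr)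

/-! ### Blocks -/

/-- A code for the functions bounded by `F`: `bl m` is the block of `m`, and `dv m a` is the
value at `m` of the function coded by `a`. -/
structure Code (H : Hit) (F : ℕ → ℕ) where
  bl : ℕ → ℕ
  dv : ℕ → ℕ → ℕ
  B : ℕ → Finset ℕ
  blB : ∀ n, ∀ m ∈ B n, bl m = n ∧ n ≤ m
  code : ∀ n, ∀ u : ℕ → ℕ, (∀ m ∈ B n, u m < F m) → ∃ z < H.Z 0 n,
    ∀ a, H.hit 0 n a z → ∃ m ∈ B n, dv m a = u m

variable {F : ℕ → ℕ}

/-- the name of the values of the code -/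
theorem exists_coded (K : Code H F) (Y : Nm H M T C) : ∃ X : Nm H M T C, Lev Γ 0 X ∧
    ∀ t n z, Val (le Γ Set.univ) t X n z → ∃ u : ℕ → ℕ,
      (∀ m ∈ K.B n, Val (le Γ Set.univ) t Y m (u m)) ∧
      ((∀ m ∈ K.B n, u m < F m) → ∀ a, H.hit 0 n a z → ∃ m ∈ K.B n, K.dv m a = u m) := by
  obtain ⟨X, -, hX⟩ := raw_of (Γ := Γ) low_univ (fun n z => {t | z < H.Z 0 n ∧ ∃ u : ℕ → ℕ,
      (∀ m ∈ K.B n, Val (le Γ Set.univ) t Y m (u m)) ∧
      ((∀ m ∈ K.B n, u m < F m) → ∀ a, H.hit 0 n a z → ∃ m ∈ K.B n, K.dv m a = u m)}) (by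
    rintro n z p q ⟨h1, u, h2, h3⟩ hqp
    exact ⟨h1, u, fun m hm => (h2 m hm).mono low_univ hqp, h3⟩) (by
    intro n p
    obtain ⟨q, hq, h1⟩ := Val.decideF (Γ := Γ) low_univ (K.B n) (fun _ => Y) (fun m => m) p
    have h2 : ∀ m, ∃ v, m ∈ K.B n → Val (le Γ Set.univ) q Y m v := by
      intro m
      by_cases h : m ∈ K.B n
      · obtain ⟨v, hv⟩ := h1 m h
        exact ⟨v, fun _ => hv⟩
      · exact ⟨0, fun h' => absurd h' h⟩
    choose u hu using h2
    by_cases h : ∀ m ∈ K.B n, u m < F m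
    · obtain ⟨z, hz, h3⟩ := K.code n u h
      exact ⟨q, hq, z, hz, u, hu, fun _ => h3⟩
    · exact ⟨q, hq, 0, H.Zpos 0 n, u, hu, fun h' => absurd h' h⟩)
  exact ⟨X, fun t n z h => (hX t n z h).1, fun t n z h => (hX t n z h).2⟩

/-- the sentence saying that the function decoded from the Cohen function at `c` is infinitely
often equal to `y` -/
def Meet (Γ : Par H M T C) (K : Code H F) (c : C) (y : ℕ → ℕ → Set (PP Γ)) : Set (PP Γ) :=
  fall fun N => fex fun n => fand (fground (N ≤ n))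
    (fex fun v => fand (meets (coh Γ K.bl K.dv (.cc c) n v)) (meets (y n v)))

theorem meet_countable (K : Code H F) {y : ℕ → ℕ → Set (PP Γ)} {q : PP Γ} (hy : q ∈ IsFun y)
    (hb : q ∈ fall fun n => fex fun v => fand (fground (v < F n)) (meets (y n v)))
    {Y : Nm H M T C} (hY : RawOf Γ q Y y) : {c | q ∉ Meet Γ K c y}.Countable := by
  obtain ⟨X, hX0, hX⟩ := exists_coded (Γ := Γ) K Y
  refine (hits_all hX0).mono fun c (hc : q ∉ Meet Γ K c y) => ?_
  rw [Set.mem_ofPred_eq]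
  intro hh
  apply hc
  intro N
  refine mem_fex.2 fun r hr => ?_
  obtain ⟨s, hs, n, hn, z, hz, hlen, hhit⟩ := hh (PP.toC r) N
  obtain ⟨u, hu1, hu2⟩ := hX s n z hz
  have hsr : (@LE.le (PP Γ) _ s r) := hs
  have hsq : (@LE.le (PP Γ) _ s q) := hsr.trans hr
  have hbd : ∀ m ∈ K.B n, u m < F m := by
    intro m hm
    have h1 : s ∈ meets (y m (u m)) := hY s hsq m _ (hu1 m hm)
    obtain ⟨s', hs', v, hv1, hv2⟩ := mem_fex.1 (hb m) s hsq
    have hs's : (@LE.le (PP Γ) _ s' s) := hs'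
    have h2 : u m = v := IsFun.unique (down_IsFun y _ hy _ (hs's.trans hsq))
      (down_meets (P := PP Γ) _ s h1 s' hs's) hv2
    rw [h2]
    exact hv1
  obtain ⟨m, hm, hdv⟩ := hu2 hbd _ hhit
  obtain ⟨hbl, hnm⟩ := K.blB n m hm
  refine ⟨s, hsr, m, (show N ≤ m from hn.trans hnm), mem_fex.2 fun w hw => ⟨w, le_rfl, u m, ?_, ?_⟩⟩
  · refine down_meets _ _ (meets_of_mem (P := PP Γ) (N := coh Γ K.bl K.dv (.cc c) m (u m))
      (p := s) ⟨?_, ?_⟩) _ hw
    · show K.bl m < _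
      rw [hbl]
      exact hlen
    · show K.dv m _ = _
      rw [hbl]
      exact hdv
  · exact down_meets _ _ (hY s hsq m _ (hu1 m hm)) _ hw

theorem largeFam (K : Code H F)
    (hC : ∀ A : T → Set C, (∀ t, (A t).Countable) → ∃ c, ∀ t, c ∉ A t) (p : PP Γ) :
    p ∈ LargeFamN (PP Γ) F T := by
  intro y
  refine mem_fimp.2 fun q _ hy => ⟨q, le_rfl, ?_⟩
  refine mem_fimp.2 fun q1 hq1 hb => ⟨q1, le_rfl, ?_⟩
  have hy1 : ∀ t, q1 ∈ IsFun (y t) := fun t => down_IsFun _ _ (hy t) _ hq1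
  choose Y hY using fun t => exists_raw (hy1 t)
  refine mem_fex.2 fun r hr => ?_
  obtain ⟨c, hc⟩ := hC (fun t => {c | r ∉ Meet Γ K c (y t)}) fun t => by
    refine meet_countable K (down_IsFun _ _ (hy1 t) _ hr) ?_ ((hY t).mono hr)
    intro n
    refine mem_fex.2 fun s hs => ?_
    exact mem_fex.1 (hb t n) s (hs.trans hr)
  refine ⟨r, le_rfl, coh Γ K.bl K.dv (.cc c), coh_isFun _ _ _ _, fun t => ?_⟩
  have := hc t
  simp only [Set.mem_ofPred_eq, not_not] at this
  exact this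

end Pool.Agent.H631.ED
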