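import Pool.Agent.H631.ED.Ext

/-!
# Reduction of names: Cohen functions hit the names of the iteration
-/

set_option autoImplicit false
set_option linter.unusedSectionVars false

namespace Pool.Agent.H631.ED

open Classical

variable {H : Hit} {M T C : Type} [LinearOrder T] [WellFoundedLT T] {Γ : Par H M T C}

theorem exists_predense (hccc : CCC Γ) (φ : Set (Cond H M T C)) :
    ∃ g : ℕ → Option (Cond H M T C), (∀ m u, g m = some u → u ∈ φ) ∧
      ∀ p ∈ φ, ∃ m a, g m = some a ∧ ∃ r, le Γ Set.univ r p ∧ le Γ Set.univ r a := by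
  have : ∃ A, Maximal (fun A : Set (Cond H M T C) => A ⊆ φ ∧
      ∀ p ∈ A, ∀ q ∈ A, p ≠ q → ¬ ∃ r, le Γ Set.univ r p ∧ le Γ Set.univ r q) A := by
    apply zorn_subset {A : Set (Cond H M T C) | A ⊆ φ ∧
      ∀ p ∈ A, ∀ q ∈ A, p ≠ q → ¬ ∃ r, le Γ Set.univ r p ∧ le Γ Set.univ r q}
    intro c hc hchain
    refine ⟨⋃₀ c, ⟨Set.sUnion_subset fun A hA => (hc hA).1, ?_⟩,
      fun s hs => Set.subset_sUnion_of_mem hs⟩
    rintro p ⟨A, hA, hpA⟩ q ⟨B, hB, hqB⟩ hne
    rcases hchain.total hA hB with h | h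
    · exact (hc hB).2 p (h hpA) q hqB hne
    · exact (hc hA).2 p hpA q (h hqB) hne
  obtain ⟨A, ⟨h1, h2⟩, hmax⟩ := this
  have hcount : A.Countable := by
    by_contra hcon
    obtain ⟨p, hp, q, hq, hne, h⟩ := hccc A hcon
    exact h2 p hp q hq hne h
  have hdense : ∀ p ∈ φ, ∃ a ∈ A, ∃ r, le Γ Set.univ r p ∧ le Γ Set.univ r a := by
    intro p hp
    by_contra hcon
    push Not at hcon
    have hpA : p ∉ A := fun h => hcon p h p (le_refl' Set.univ p) (le_refl' Set.univ p)
    apply hpA
    refine hmax (y := insert p A) ⟨Set.insert_subset hp h1, ?_⟩ (Set.subset_insert p A)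
      (Set.mem_insert p A)
    rintro x (rfl | hx) y (rfl | hy) hne
    · exact absurd rfl hne
    · rintro ⟨r, hr1, hr2⟩
      exact hcon y hy r hr1 hr2
    · rintro ⟨r, hr1, hr2⟩
      exact hcon x hx r hr2 hr1
    · exact h2 x hx y hy hne
  rcases A.eq_empty_or_nonempty with h | h
  · refine ⟨fun _ => none, fun m u hu => by simp at hu, fun p hp => ?_⟩
    obtain ⟨a, ha, -⟩ := hdense p hp
    rw [h] at ha
    exact absurd ha (Set.notMem_empty a)
  · obtain ⟨g, hg⟩ := hcount.exists_eq_range h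
    refine ⟨fun m => some (g m), ?_, fun p hp => ?_⟩
    · intro m u hu
      have : g m = u := Option.some_injective _ hu
      exact h1 (by rw [hg, ← this]; exact Set.mem_range_self m)
    · obtain ⟨a, ha, hr⟩ := hdense p hp
      rw [hg] at ha
      obtain ⟨m, rfl⟩ := ha
      exact ⟨m, g m, rfl, hr⟩

/-- names from dense sets -/
theorem raw_of {W : Set (Ix T C)} (hW : Low W) (V : ℕ → ℕ → Set (Cond H M T C))
    (hmono : ∀ n z p q, p ∈ V n z → le Γ W q p → q ∈ V n z)
    (hdense : ∀ n p, ∃ q, le Γ W q p ∧ ∃ z, q ∈ V n z) :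
    ∃ X : Nm H M T C, Supp W X ∧ ∀ t n z, Val (le Γ W) t X n z → t ∈ V n z := by
  let φ : ℕ → Set (Cond H M T C) := fun n => {q | (∃ z, q ∈ V n z) ∧ ∀ i ∉ W, q i = CV.top}
  choose g hg1 hg2 using fun n => exists_predense (Γ := Γ) ccc (φ n)
  let val : ℕ → Cond H M T C → ℕ := fun n u =>
    if h : ∃ z, u ∈ V n z then Classical.choose h else 0
  have hval : ∀ n (u : Cond H M T C), (∃ z, u ∈ V n z) → u ∈ V n (val n u) := by
    intro n u h
    simp only [val, dif_pos h]
    exact Classical.choose_spec h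
  refine ⟨fun n m => (g n m).map fun u => (u, val n u), ?_, ?_⟩
  · intro n m u v hu i hi
    obtain ⟨u', hu', he⟩ := Option.map_eq_some_iff.1 hu
    have h3 : u' = u := (Prod.mk.inj he).1
    rw [h3] at hu'
    exact (hg1 n m u hu').2 i hi
  · intro t n z hv
    rcases hv with ⟨m, u, h1, h2, _⟩ | ⟨_, h2⟩
    · obtain ⟨u', hu', he⟩ := Option.map_eq_some_iff.1 h1
      have h3 : u' = u := (Prod.mk.inj he).1
      have h4 : val n u' = z := (Prod.mk.inj he).2
      rw [h3] at hu' h4
      have h5 : u ∈ φ n := hg1 n m u hu'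
      have h6 := hval n u h5.1
      rw [h4] at h6
      exact hmono n z u t h6 h2
    · exfalso
      obtain ⟨q, hq, z', hz'⟩ := hdense n t
      have h3 : mix W q Cond.one ∈ φ n := by
        refine ⟨⟨z', hmono n z' q _ hz' (mix_eq hW _ _)⟩, fun i hi => ?_⟩
        rw [mix_notMem _ _ hi]
        rfl
      obtain ⟨m, a, hm, s, hs, hs'⟩ := hg2 n _ h3
      refine h2 m a (val n a) ?_ ⟨s, ?_, le_mono (Set.subset_univ _) hs'⟩
      · show (g n m).map _ = _
        rw [hm]
        rfl
      · exact le_trans' hW (le_trans' hW (le_mono (Set.subset_univ _) hs) (mix_eq hW _ _)) hq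

/-- the values of `X` are codes of level `k` -/
def Lev (Γ : Par H M T C) (k : ℕ) (X : Nm H M T C) : Prop :=
  ∀ t n z, Val (le Γ Set.univ) t X n z → z < H.Z k n

/-- the Cohen function at `c` hits `X` infinitely often -/
def Hits (Γ : Par H M T C) (k : ℕ) (c : C) (X : Nm H M T C) : Prop :=
  ∀ (p : Cond H M T C) (N : ℕ), ∃ q, le Γ Set.univ q p ∧ ∃ n, N ≤ n ∧ ∃ z,
    Val (le Γ Set.univ) q X n z ∧ n < (q (.cc c)).stem.length ∧
      H.hit k n ((q (.cc c)).stem.getD n 0) z

/-- the coordinates `ed t`, `t ∈ A`, and `cc c` -/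
def sub (A : Set T) : Set (Ix T C)
  | .ed t => t ∈ A
  | .cc _ => True

theorem ed_mem_sub {A : Set T} {t : T} : (.ed t : Ix T C) ∈ sub A ↔ t ∈ A := Iff.rfl

theorem cc_mem_sub {A : Set T} (c : C) : (.cc c : Ix T C) ∈ sub A := trivial

theorem low_sub {A : Set T} (hA : ∀ t ∈ A, ∀ t' < t, t' ∈ A) : Low (sub A : Set (Ix T C)) := by
  intro j hj i hij
  rcases j with t | c
  · rcases i with t' | c'
    · exact hA t hj t' hij
    · trivial
  · exact absurd hij (Ix.not_lt_cc _ _)

theorem low_iio (t : T) : Low (sub (Set.Iio t) : Set (Ix T C)) :=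
  low_sub fun _ ha _ hb => lt_trans hb ha

theorem low_iic (t : T) : Low (sub (Set.Iic t) : Set (Ix T C)) :=
  low_sub fun _ ha _ hb => le_trans (le_of_lt hb) ha

/-- only countably many Cohen functions do not hit a given name in `sub A` -/
def Cl (Γ : Par H M T C) (A : Set T) : Prop :=
  ∀ k (X : Nm H M T C), Lev Γ k X → Supp (sub A) X → {c | ¬ Hits Γ k c X}.Countable

/-- the coordinates `ed t` in the name -/
def edset (X : Nm H M T C) : Set T := {t | ∃ n m u v, X n m = some (u, v) ∧ u (.ed t) ≠ CV.top}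

/-- the coordinates `cc c` in the name -/
def ccset (X : Nm H M T C) : Set C := {c | ∃ n m u v, X n m = some (u, v) ∧ u (.cc c) ≠ CV.top}

theorem edset_countable (X : Nm H M T C) : (edset X).Countable := by
  have h1 : edset X = ⋃ n, ⋃ m, {t | ∃ u v, X n m = some (u, v) ∧ u (.ed t) ≠ CV.top} := by
    ext t
    simp only [edset, Set.mem_ofPred_eq, Set.mem_iUnion]
  rw [h1]
  refine Set.countable_iUnion fun n => Set.countable_iUnion fun m => ?_
  rcases h : X n m with _ | ⟨u, v⟩
  · convert Set.countable_empty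
    ext t
    simp
  · refine (supp_ed_finite u).countable.mono ?_
    rintro t ⟨u', v', h1, h2⟩
    simp only [Option.some.injEq, Prod.mk.injEq] at h1
    obtain ⟨rfl, rfl⟩ := h1
    exact h2

theorem ccset_countable (X : Nm H M T C) : (ccset X).Countable := by
  have hinj : Function.Injective (fun c : C => (Ix.cc c : Ix T C)) := fun a b h => by
    simpa using h
  have h1 : ccset X = ⋃ n, ⋃ m, {t | ∃ u v, X n m = some (u, v) ∧ u (.cc t) ≠ CV.top} := by
    ext t
    simp only [ccset, Set.mem_ofPred_eq, Set.mem_iUnion]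
  rw [h1]
  refine Set.countable_iUnion fun n => Set.countable_iUnion fun m => ?_
  rcases h : X n m with _ | ⟨u, v⟩
  · convert Set.countable_empty
    ext t
    simp
  · refine (Set.Finite.preimage hinj.injOn u.2.1).countable.mono ?_
    rintro t ⟨u', v', h1, h2⟩
    simp only [Option.some.injEq, Prod.mk.injEq] at h1
    obtain ⟨rfl, rfl⟩ := h1
    exact h2

theorem supp_of_edset {A : Set T} {X : Nm H M T C} (h : edset X ⊆ A) : Supp (sub A) X := by
  intro n m u v hu i hi
  rcases i with t | c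
  · by_contra hcon
    exact hi (h ⟨n, m, u, v, hu, hcon⟩)
  · exact absurd (cc_mem_sub c) hi

theorem edset_sub {A : Set T} {X : Nm H M T C} (h : Supp (sub A) X) : edset X ⊆ A := by
  rintro t ⟨n, m, u, v, hu, hne⟩
  by_contra hcon
  exact hne (h n m u v hu (.ed t) hcon)

/-- no coordinates `ed t` -/
theorem hits_base {k : ℕ} {X : Nm H M T C} (hl : Lev Γ k X) (h0 : edset X = ∅) :
    {c | ¬ Hits Γ k c X}.Countable := by
  refine (ccset_countable X).mono fun c hc => ?_
  by_contra hcc
  apply hc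
  set W : Set (Ix T C) := {i | ∃ c', c' ≠ c ∧ i = .cc c'} with hWdef
  have hW : Low W := by
    rintro j ⟨c', -, rfl⟩ i hi
    exact absurd hi (Ix.not_lt_cc _ _)
  have hcW : (.cc c : Ix T C) ∉ W := by
    rintro ⟨c', h1, h2⟩
    apply h1
    simpa using h2.symm
  have hX : Supp W X := by
    intro n m u v hu i hi
    by_contra hcon
    rcases i with t | c'
    · have : t ∈ edset X := ⟨n, m, u, v, hu, hcon⟩
      rw [h0] at this
      exact this
    · by_cases h : c' = c
      · subst h
        exact hcc ⟨n, m, u, v, hu, hcon⟩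
      · exact hi ⟨c', h, rfl⟩
  intro p N
  set L := (p (.cc c)).stem.length with hL
  set n := max N (max L k) with hn
  have hLn : L ≤ n := (le_max_left _ _).trans (le_max_right _ _)
  have hkn : k ≤ n := (le_max_right _ _).trans (le_max_right _ _)
  obtain ⟨t, ht, z, hz⟩ := Val.dense (Γ := Γ) hW p X n
  obtain ⟨a, ha⟩ := H.ex k n hkn z (hl t n z (hz.toUniv hW hX))
  let r1 : Cond H M T C := mix W t p
  have hr1 : le Γ Set.univ r1 p := mix_le hW ht
  have hr1c : r1 (.cc c) = p (.cc c) := mix_notMem _ _ hcW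
  have hlen0 : ((r1 (.cc c)).stem ++ List.replicate (n - L) 0).length = n := by
    rw [List.length_append, List.length_replicate, hr1c, ← hL]
    omega
  have hpr : (r1 (.cc c)).pr = ∅ := (r1.legit (.cc c)).2.2 c rfl
  have hleg : Legit H (.cc c : Ix T C) (⟨((r1 (.cc c)).stem ++ List.replicate (n - L) 0) ++ [a],
      (r1 (.cc c)).pr⟩ : CV M) := by
    refine ⟨?_, fun t' ht' => by simp at ht', fun _ _ => hpr⟩
    show (r1 (.cc c)).pr.card < _
    rw [hpr]
    simpa using H.pos _
  let r2 : Cond H M T C := upd r1 (.cc c) _ hleg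
  have hr2c : r2 (.cc c) = ⟨((r1 (.cc c)).stem ++ List.replicate (n - L) 0) ++ [a],
      (r1 (.cc c)).pr⟩ := upd_same _ _ _ _
  have hr21 : le Γ Set.univ r2 r1 := by
    intro i _
    by_cases hi : i = .cc c
    · subst hi
      refine ext_noreq (fun _ => rfl) ?_ (by rw [hr2c])
      rw [hr2c, List.append_assoc]
      exact List.prefix_append _ _
    · exact ext_of_eq (upd_of_ne _ _ _ hi)
  refine ⟨r2, le_trans' low_univ hr21 hr1, n, le_max_left _ _, z, ?_, ?_, ?_⟩
  · refine Val.toUniv hW hX (hz.mono hW ?_)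
    exact le_trans' hW (le_mono (Set.subset_univ _) hr21) (mix_eq hW _ _)
  · rw [hr2c]
    show n < (((r1 (.cc c)).stem ++ List.replicate (n - L) 0) ++ [a]).length
    rw [List.length_append, hlen0]
    simp
  · rw [hr2c]
    show H.hit k n ((((r1 (.cc c)).stem ++ List.replicate (n - L) 0) ++ [a]).getD n 0) z
    rw [List.getD_append_right _ _ _ _ hlen0.le, hlen0]
    simpa using ha

end Pool.Agent.H631.ED
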