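import Pool.Agent.H631.ED.Reduce

/-!
# Reduction of names: successor and limit steps
-/

set_option autoImplicit false
set_option linter.unusedSectionVars false

namespace Pool.Agent.H631.ED

open Classical

variable {H : Hit} {M T C : Type} [LinearOrder T] [WellFoundedLT T] {Γ : Par H M T C}

theorem of_mem_stems {G : ℕ → ℕ} {n : ℕ} {s : List ℕ} (h : s ∈ stems G n) :
    s.length = n ∧ ∀ i < n, s.getD i 0 < G i := by
  obtain ⟨f, hf, rfl⟩ := Finset.mem_image.1 h
  rw [Fintype.mem_piFinset] at hf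
  refine ⟨List.length_ofFn, fun i hi => ?_⟩
  have h1 : (List.ofFn f).getD i 0 = f ⟨i, hi⟩ := by
    rw [List.getD_eq_getElem _ _ (by rw [List.length_ofFn]; exact hi), List.getElem_ofFn]
  rw [h1]
  exact Finset.mem_range.1 (hf ⟨i, hi⟩)

theorem legit_of {t1 : T} {n : ℕ} {σ : List ℕ} (hσ : σ ∈ stems H.G n) {pr : Finset M}
    (hpr : pr.card < H.G n) : Legit H (.ed t1 : Ix T C) (⟨σ, pr⟩ : CV M) := by
  obtain ⟨h1, h2⟩ := of_mem_stems hσ
  refine ⟨?_, fun t _ i hi => ?_, fun c hc => by simp at hc⟩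
  · show pr.card < H.G σ.length
    rw [h1]
    exact hpr
  · exact h2 i (by rw [← h1]; exact hi)

/-- `r` below `t1`, and a given part at `t1` -/
noncomputable def pt (t1 : T) (r : Cond H M T C) (v : CV M) (hv : Legit H (.ed t1 : Ix T C) v) :
    Cond H M T C :=
  upd (mix (sub (Set.Iio t1)) r Cond.one) (.ed t1) v hv

theorem ed_notMem_iio (t1 : T) : (.ed t1 : Ix T C) ∉ sub (Set.Iio t1) := fun h =>
  lt_irrefl t1 h

theorem pt_same (t1 : T) (r : Cond H M T C) (v : CV M) (hv : Legit H (.ed t1 : Ix T C) v) :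
    pt t1 r v hv (.ed t1) = v := upd_same _ _ _ _

theorem pt_mem (t1 : T) (r : Cond H M T C) (v : CV M) (hv : Legit H (.ed t1 : Ix T C) v)
    {i : Ix T C} (hi : i ∈ sub (Set.Iio t1)) : pt t1 r v hv i = r i := by
  have hne : i ≠ .ed t1 := fun h => ed_notMem_iio t1 (h ▸ hi)
  rw [pt, upd_of_ne _ _ _ hne]
  exact mix_mem _ _ hi

theorem pt_other (t1 : T) (r : Cond H M T C) (v : CV M) (hv : Legit H (.ed t1 : Ix T C) v)
    {i : Ix T C} (hi : i ∉ sub (Set.Iio t1)) (hne : i ≠ .ed t1) : pt t1 r v hv i = CV.top := by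
  rw [pt, upd_of_ne _ _ _ hne, mix_notMem _ _ hi]
  rfl

theorem pt_mono {t1 : T} {r r' : Cond H M T C} (hr : le Γ (sub (Set.Iio t1)) r' r) {σ : List ℕ}
    {pr pr' : Finset M} (hpr : pr ⊆ pr') (hv : Legit H (.ed t1 : Ix T C) (⟨σ, pr⟩ : CV M))
    (hv' : Legit H (.ed t1 : Ix T C) (⟨σ, pr'⟩ : CV M)) :
    le Γ Set.univ (pt t1 r' ⟨σ, pr'⟩ hv') (pt t1 r ⟨σ, pr⟩ hv) := by
  intro j _
  by_cases hj : j ∈ sub (Set.Iio t1)
  · exact ext_congr j (fun i hi => (pt_mem t1 r' _ hv' (low_iio t1 j hj i hi)).symm)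
      (pt_mem t1 r' _ hv' hj).symm (pt_mem t1 r _ hv hj).symm (hr j hj)
  · by_cases hj1 : j = .ed t1
    · subst hj1
      refine ext_same_stem ?_ ?_
      · rw [pt_same, pt_same]
      · rw [pt_same, pt_same]
        exact hpr
    · exact ext_of_eq (by rw [pt_other _ _ _ _ hj hj1, pt_other _ _ _ _ hj hj1])

/-- every condition with a given stem at `t1` and few promises at `t1` can be strengthened to a
condition which decides that the value is `z` -/
def Maybe (Γ : Par H M T C) (X : Nm H M T C) (t1 : T) (n : ℕ) (σ : List ℕ) (r : Cond H M T C)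
    (z : ℕ) : Prop :=
  ∀ r', le Γ (sub (Set.Iio t1)) r' r → ∀ (pr : Finset M)
    (hv : Legit H (.ed t1 : Ix T C) (⟨σ, pr⟩ : CV M)), pr.card ≤ n →
    ∃ q, le Γ Set.univ q (pt t1 r' ⟨σ, pr⟩ hv) ∧ Val (le Γ Set.univ) q X n z

theorem Maybe.mono {X : Nm H M T C} {t1 : T} {n : ℕ} {σ : List ℕ} {r r' : Cond H M T C}
    {z : ℕ} (h : Maybe Γ X t1 n σ r z) (hr : le Γ (sub (Set.Iio t1)) r' r) :
    Maybe Γ X t1 n σ r' z := fun r'' hr'' => h r'' (le_trans' (low_iio t1) hr'' hr)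

theorem maybe_ex {X : Nm H M T C} {k : ℕ} (hl : Lev Γ k X) (t1 : T) {n : ℕ} (hkn : k < n)
    {σ : List ℕ} (hσ : σ ∈ stems H.G n) (r0 : Cond H M T C) :
    ∃ r, le Γ (sub (Set.Iio t1)) r r0 ∧ ∃ z < H.Z k n, Maybe Γ X t1 n σ r z := by
  by_contra hcon
  push Not at hcon
  have key : ∀ j ≤ H.Z k n, ∃ r, le Γ (sub (Set.Iio t1)) r r0 ∧ ∃ (pr : Finset M)
      (hv : Legit H (.ed t1 : Ix T C) (⟨σ, pr⟩ : CV M)), pr.card ≤ n * j ∧
      ∀ z < j, ∀ q, le Γ Set.univ q (pt t1 r ⟨σ, pr⟩ hv) → ¬ Val (le Γ Set.univ) q X n z := by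
    intro j
    induction j with
    | zero =>
      intro _
      refine ⟨r0, le_refl' _ _, ∅, legit_of hσ ?_, by simp, fun z hz => absurd hz (Nat.not_lt_zero z)⟩
      simpa using H.pos n
    | succ j ih =>
      intro hj
      obtain ⟨r, hr, pr, hv, hc, h1⟩ := ih (by omega)
      have h2 := hcon r hr j (by omega)
      unfold Maybe at h2
      push Not at h2
      obtain ⟨r', hr', pr', hv', hc', h3⟩ := h2
      have hcard : (pr ∪ pr').card ≤ n * (j + 1) := by
        have := Finset.card_union_le pr pr'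
        rw [Nat.mul_succ]
        omega
      have hlt : (pr ∪ pr').card < H.G n := by
        refine hcard.trans_lt (lt_of_le_of_lt (Nat.mul_le_mul_left n hj) (H.Zlt k n hkn.le))
      refine ⟨r', le_trans' (low_iio t1) hr' hr, pr ∪ pr', legit_of hσ hlt, hcard, ?_⟩
      intro z hz q hq hval
      rcases Nat.lt_succ_iff_lt_or_eq.1 hz with hz | rfl
      · exact h1 z hz q (le_trans' low_univ hq (pt_mono hr' Finset.subset_union_left _ _)) hval
      · exact h3 q (le_trans' low_univ hq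
          (pt_mono (le_refl' _ _) Finset.subset_union_right _ _)) hval
  obtain ⟨r, hr, pr, hv, hc, h1⟩ := key _ le_rfl
  obtain ⟨q, hq, v, hval⟩ := Val.dense (Γ := Γ) low_univ (pt t1 r ⟨σ, pr⟩ hv) X n
  exact h1 v (hl q n v hval) q hq hval

theorem maybe_all {X : Nm H M T C} {k : ℕ} (hl : Lev Γ k X) (t1 : T) {n : ℕ} (hkn : k < n)
    (F : Finset (List ℕ)) (hF : F ⊆ stems H.G n) (r0 : Cond H M T C) :
    ∃ r, le Γ (sub (Set.Iio t1)) r r0 ∧ ∃ f : List ℕ → ℕ, (∀ σ, f σ < H.Z k n) ∧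
      ∀ σ ∈ F, Maybe Γ X t1 n σ r (f σ) := by
  induction F using Finset.induction_on with
  | empty =>
    exact ⟨r0, le_refl' _ _, fun _ => 0, fun _ => H.Zpos k n, fun σ h =>
      absurd h (Finset.notMem_empty σ)⟩
  | insert σ F hσF ih =>
    obtain ⟨r, hr, f, hf, h1⟩ := ih ((Finset.subset_insert σ F).trans hF)
    obtain ⟨r', hr', z, hz, h2⟩ := maybe_ex hl t1 hkn (hF (Finset.mem_insert_self σ F)) r
    refine ⟨r', le_trans' (low_iio t1) hr' hr, Function.update f σ z, fun τ => ?_, fun τ hτ => ?_⟩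
    · by_cases h : τ = σ
      · rw [h, Function.update_self]
        exact hz
      · rw [Function.update_of_ne h]
        exact hf τ
    · by_cases h : τ = σ
      · rw [h, Function.update_self]
        exact h2
      · rw [Function.update_of_ne h]
        exact (h1 τ ((Finset.mem_insert.1 hτ).resolve_left h)).mono hr'

theorem hits_succ {k : ℕ} {X : Nm H M T C} (hl : Lev Γ k X) {t1 : T}
    (hX : Supp (sub (Set.Iic t1)) X) (hcl : Cl Γ (Set.Iio t1)) :
    {c | ¬ Hits Γ k c X}.Countable := by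
  let V : ℕ → ℕ → Set (Cond H M T C) := fun n z => {r | (n ≤ k ∧ z = 0) ∨ (k < n ∧
    z < H.Z (k + 1) n ∧ ∃ f : List ℕ → ℕ,
      (∀ a, H.hit (k + 1) n a z → ∀ σ ∈ stems H.G n, H.hit k n a (f σ)) ∧
      ∀ σ ∈ stems H.G n, Maybe Γ X t1 n σ r (f σ))}
  obtain ⟨Y, hY, hYV⟩ := raw_of (Γ := Γ) (low_iio t1) V (by
    rintro n z p q (h | ⟨h1, h2, f, h3, h4⟩) hqp
    · exact Or.inl h
    · exact Or.inr ⟨h1, h2, f, h3, fun σ hσ => (h4 σ hσ).mono hqp⟩) (by
    intro n p
    rcases Nat.lt_or_ge k n with hkn | hkn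
    · obtain ⟨r, hr, f, hf, h1⟩ := maybe_all hl t1 hkn (stems H.G n) (Finset.Subset.refl _) p
      obtain ⟨w, hw, h2⟩ := H.comb k n hkn f hf
      exact ⟨r, hr, w, Or.inr ⟨hkn, hw, f, h2, h1⟩⟩
    · exact ⟨p, le_refl' _ _, 0, Or.inl ⟨hkn, rfl⟩⟩)
  have hYl : Lev Γ (k + 1) Y := by
    intro t n z hz
    rcases hYV t n z ((Val.iff_of_supp (low_iio t1) (Set.subset_univ _) hY).1 hz) with
      ⟨_, h⟩ | ⟨_, h, _⟩
    · rw [h]
      exact H.Zpos _ _
    · exact h
  refine (hcl (k + 1) Y hYl hY).mono fun c (hc : ¬ Hits Γ k c X) => ?_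
  rw [Set.mem_ofPred_eq]
  intro hcon
  apply hc
  intro p N
  set S : Set (Ix T C) := sub (Set.Iio t1) with hSdef
  set W : Set (Ix T C) := sub (Set.Iic t1) with hWdef
  have hS : Low S := low_iio t1
  have hW : Low W := low_iic t1
  have hcS : (.cc c : Ix T C) ∈ S := cc_mem_sub c
  have hcW : (.cc c : Ix T C) ∈ W := cc_mem_sub c
  obtain ⟨q0, hq0, n, hn, w, hw, hlen, hhit⟩ := hcon (mix S p Cond.one)
    (max N (max (p (.ed t1)).stem.length (max (p (.ed t1)).pr.card (k + 1))))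
  have hnN : N ≤ n := (le_max_left _ _).trans hn
  have hns : (p (.ed t1)).stem.length ≤ n := ((le_max_left _ _).trans (le_max_right _ _)).trans hn
  have hnp : (p (.ed t1)).pr.card ≤ n :=
    (((le_max_left _ _).trans (le_max_right _ _)).trans (le_max_right _ _)).trans hn
  have hnk : k + 1 ≤ n :=
    (((le_max_right _ _).trans (le_max_right _ _)).trans (le_max_right _ _)).trans hn
  rcases hYV q0 n w ((Val.iff_of_supp (low_iio t1) (Set.subset_univ _) hY).1 hw) with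
    ⟨h, _⟩ | ⟨_, _, f, hf1, hf2⟩
  · omega
  have hq0p : le Γ S q0 p := le_trans' hS (le_mono (Set.subset_univ _) hq0) (mix_eq hS _ _)
  have hq1 : le Γ Set.univ (mix S q0 p) p := mix_le hS hq0p
  have hq1t : mix S q0 p (.ed t1) = p (.ed t1) := mix_notMem _ _ (ed_notMem_iio t1)
  obtain ⟨q2, hq2, hlen2, hpr2, -⟩ := ext_exact Γ (.ed t1) n (mix S q0 p) (by
    rw [hq1t]
    exact hns)
  have hσ : (q2 (.ed t1)).stem ∈ stems H.G n :=
    mem_stems hlen2 fun i hi => (q2.legit (.ed t1)).2.1 t1 rfl i (by rw [hlen2]; exact hi)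
  have hq20 : le Γ S q2 q0 := le_trans' hS (le_mono (Set.subset_univ _) hq2) (mix_eq hS _ _)
  obtain ⟨q, hq, hqv⟩ := hf2 _ hσ q2 hq20 (q2 (.ed t1)).pr (q2.legit (.ed t1)) (by
    rw [hpr2, hq1t]
    exact hnp)
  have hpt : ∀ i ∈ W, pt t1 q2 ⟨(q2 (.ed t1)).stem, (q2 (.ed t1)).pr⟩ (q2.legit (.ed t1)) i = q2 i := by
    intro i hi
    by_cases hiS : i ∈ sub (Set.Iio t1)
    · exact pt_mem _ _ _ _ hiS
    · rcases i with t | c'
      · have h1 : t = t1 := le_antisymm hi (not_lt.1 hiS)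
        subst h1
        exact pt_same _ _ _ _
      · exact absurd (cc_mem_sub c') hiS
  have hqW : le Γ W q q2 := le_trans' hW (le_mono (Set.subset_univ _) hq)
    (le_of_eq hW hpt)
  have hq3 : le Γ Set.univ (mix W q q2) q2 := mix_le hW hqW
  have hc3 : mix W q q2 (.cc c) = q (.cc c) := mix_mem _ _ hcW
  have hst : (q0 (.cc c)).stem <+: (q (.cc c)).stem :=
    (ext_stem (hq20 _ hcS)).trans (ext_stem (hqW _ hcW))
  refine ⟨mix W q q2, le_trans' low_univ hq3 (le_trans' low_univ hq2 hq1), n, hnN,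
    f (q2 (.ed t1)).stem, ?_, ?_, ?_⟩
  · exact Val.toUniv hW hX (((Val.iff_of_supp hW (Set.subset_univ _) hX).1 hqv).mono hW
      (mix_eq hW _ _))
  · rw [hc3]
    exact hlen.trans_le hst.length_le
  · rw [hc3, getD_prefix hst hlen]
    exact hf1 _ hhit _ hσ

theorem hits_limit {k : ℕ} {X : Nm H M T C} (hl : Lev Γ k X) (hne : (edset X).Nonempty)
    (hmax : ∀ t ∈ edset X, ∃ t' ∈ edset X, t < t')
    (hcl : ∀ t ∈ edset X, Cl Γ (Set.Iio t)) :
    {c | ¬ Hits Γ k c X}.Countable := by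
  let A : Set T := {t | ∃ t' ∈ edset X, t < t'}
  have hA : ∀ t ∈ A, ∀ t' < t, t' ∈ A := by
    rintro t ⟨t1, h1, h2⟩ t' h
    exact ⟨t1, h1, h.trans h2⟩
  have hW : Low (sub A : Set (Ix T C)) := low_sub hA
  have hX : Supp (sub A) X := supp_of_edset hmax
  have hY : ∀ t1 ∈ edset X, ∃ Y : Nm H M T C, Supp (sub (Set.Iio t1)) Y ∧
      ∀ t n z, Val (le Γ (sub (Set.Iio t1))) t Y n z → z < H.Z k n ∧
        ∀ r', le Γ (sub (Set.Iio t1)) r' t → ∃ q,
          le Γ Set.univ q (mix (sub (Set.Iio t1)) r' Cond.one) ∧ Val (le Γ Set.univ) q X n z := by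
    intro t1 _
    set S : Set (Ix T C) := sub (Set.Iio t1) with hSdef
    have hS : Low S := low_iio t1
    obtain ⟨Y, h1, h2⟩ := raw_of (Γ := Γ) hS (fun n z => {t | z < H.Z k n ∧
        ∀ r', le Γ S r' t → ∃ q,
          le Γ Set.univ q (mix S r' Cond.one) ∧ Val (le Γ Set.univ) q X n z}) (by
      rintro n z p q ⟨h1, h2⟩ hqp
      exact ⟨h1, fun r' hr' => h2 r' (le_trans' hS hr' hqp)⟩) (by
      intro n p
      obtain ⟨q0, hq0, v, hv⟩ := Val.dense (Γ := Γ) low_univ (mix S p Cond.one) X n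
      refine ⟨q0, le_trans' hS (le_mono (Set.subset_univ _) hq0) (mix_eq hS _ _), v,
        hl _ _ _ hv, fun r' hr' => ?_⟩
      refine ⟨mix S r' q0, fun i _ => ?_, hv.mono low_univ (mix_le hS hr')⟩
      by_cases hi : i ∈ S
      · refine ext_of_eq ?_
        rw [mix_mem _ _ hi, mix_mem _ _ hi]
      · exact ext_top (mix_notMem _ _ hi))
    exact ⟨Y, h1, fun t n z h => h2 t n z h⟩
  choose! Y hY1 hY2 using hY
  have hYl : ∀ t1 ∈ edset X, Lev Γ k (Y t1) := by
    intro t1 h1 t n z hz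
    exact (hY2 t1 h1 t n z ((Val.iff_of_supp (low_iio t1) (Set.subset_univ _) (hY1 t1 h1)).1 hz)).1
  refine ((edset_countable X).biUnion fun t1 h1 =>
    hcl t1 h1 k (Y t1) (hYl t1 h1) (hY1 t1 h1)).mono fun c hc => ?_
  by_contra hcon
  simp only [Set.mem_iUnion, Set.mem_ofPred_eq, not_exists, not_not] at hcon
  apply hc
  intro p N
  -- choice of t1
  have hch : ∀ F : Finset T, (∀ t ∈ F, t ∈ A) → ∃ t1 ∈ edset X, ∀ t ∈ F, t < t1 := by
    intro F
    induction F using Finset.induction_on with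
    | empty =>
      intro _
      obtain ⟨t, ht⟩ := hne
      exact ⟨t, ht, fun t' h => absurd h (Finset.notMem_empty t')⟩
    | insert t F _ ih =>
      intro hF
      obtain ⟨t1, h1, h2⟩ := ih fun t' ht' => hF t' (Finset.mem_insert_of_mem ht')
      obtain ⟨t2, h3, h4⟩ := hF t (Finset.mem_insert_self t F)
      rcases le_total t1 t2 with h | h
      · refine ⟨t2, h3, fun t' ht' => ?_⟩
        rcases Finset.mem_insert.1 ht' with rfl | h'
        · exact h4
        · exact (h2 t' h').trans_le h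
      · refine ⟨t1, h1, fun t' ht' => ?_⟩
        rcases Finset.mem_insert.1 ht' with rfl | h'
        · exact h4.trans_le h
        · exact h2 t' h'
  have hfin : {t | t ∈ A ∧ p (.ed t) ≠ CV.top}.Finite :=
    (supp_ed_finite p).subset fun t ht => ht.2
  obtain ⟨t1, ht1, hbd⟩ := hch hfin.toFinset (fun t ht => by
    rw [Set.Finite.mem_toFinset] at ht
    exact ht.1)
  have hbd' : ∀ t ∈ A, ¬ t < t1 → p (.ed t) = CV.top := by
    intro t ht hlt
    by_contra h
    exact hlt (hbd t (by rw [Set.Finite.mem_toFinset]; exact ⟨ht, h⟩))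
  set S : Set (Ix T C) := sub (Set.Iio t1) with hSdef
  have hS : Low S := low_iio t1
  have hcS : (.cc c : Ix T C) ∈ S := cc_mem_sub c
  have hcW : (.cc c : Ix T C) ∈ (sub A : Set (Ix T C)) := cc_mem_sub c
  obtain ⟨q0, hq0, n, hn, z, hz, hlen, hhit⟩ := hcon t1 ht1 (mix S p Cond.one) N
  obtain ⟨q, hq, hqv⟩ := (hY2 t1 ht1 q0 n z
    ((Val.iff_of_supp (low_iio t1) (Set.subset_univ _) (hY1 t1 ht1)).1 hz)).2 q0 (le_refl' _ _)
  have hq1 : le Γ S q q0 := le_trans' hS (le_mono (Set.subset_univ _) hq) (mix_eq hS _ _)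
  have hqS : le Γ S q p :=
    le_trans' hS hq1 (le_trans' hS (le_mono (Set.subset_univ _) hq0) (mix_eq hS _ _))
  have hqW : le Γ (sub A) q p := by
    intro i hi
    by_cases hiS : i ∈ S
    · exact hqS i hiS
    · rcases i with t | c'
      · exact ext_top (hbd' t hi hiS)
      · exact absurd (cc_mem_sub c') hiS
  have hc3 : mix (sub A) q p (.cc c) = q (.cc c) := mix_mem _ _ hcW
  have hst : (q0 (.cc c)).stem <+: (q (.cc c)).stem := ext_stem (hq1 _ hcS)
  refine ⟨mix (sub A) q p, mix_le hW hqW, n, hn, z, ?_, ?_, ?_⟩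
  · exact Val.toUniv hW hX (((Val.iff_of_supp hW (Set.subset_univ _) hX).1 hqv).mono hW
      (mix_eq hW _ _))
  · rw [hc3]
    exact hlen.trans_le hst.length_le
  · rw [hc3, getD_prefix hst hlen]
    exact hhit

theorem cl_step {A : Set T} (hcl : ∀ t ∈ A, Cl Γ (Set.Iio t)) : Cl Γ A := by
  intro k X hl hX
  have hD : edset X ⊆ A := edset_sub hX
  rcases (edset X).eq_empty_or_nonempty with h | h
  · exact hits_base hl h
  · by_cases hmax : ∃ t ∈ edset X, ∀ t' ∈ edset X, t' ≤ t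
    · obtain ⟨t1, h1, h2⟩ := hmax
      exact hits_succ hl (supp_of_edset (A := Set.Iic t1) fun t ht => h2 t ht) (hcl t1 (hD h1))
    · push Not at hmax
      exact hits_limit hl h hmax fun t ht => hcl t (hD ht)

theorem cl_iio (t : T) : Cl Γ (Set.Iio t) := by
  induction t using WellFoundedLT.induction with
  | ind t ih => exact cl_step fun t' ht' => ih t' ht'

/-- all but countably many Cohen functions hit a given name -/
theorem hits_all {k : ℕ} {X : Nm H M T C} (hl : Lev Γ k X) : {c | ¬ Hits Γ k c X}.Countable :=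
  cl_step (A := Set.univ) (fun t _ => cl_iio t) k X hl
    (supp_of_edset (Set.subset_univ _))

end Pool.Agent.H631.ED
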