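import Pool.Agent.H631.ED.Frame

/-!
# The sentence `PhiHolds` over the trivial notion of forcing
-/

set_option autoImplicit false

namespace Pool.Agent.H631.ED

open Pool.Agent.Helper669.Forcing

section

universe v w

theorem u_fnot {φ : Set Unit} {p : Unit} : p ∈ fnot φ ↔ p ∉ φ :=
  ⟨fun h => h p le_rfl, fun h _ _ => h⟩

theorem u_fall {ι : Sort v} {φ : ι → Set Unit} {p : Unit} : p ∈ fall φ ↔ ∀ i, p ∈ φ i := Iff.rfl

theorem u_fand {φ ψ : Set Unit} {p : Unit} : p ∈ fand φ ψ ↔ p ∈ φ ∧ p ∈ ψ := Iff.rfl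

theorem u_fground {h : Prop} {p : Unit} : p ∈ fground (P := Unit) h ↔ h := Iff.rfl

theorem u_fex {ι : Sort v} {φ : ι → Set Unit} {p : Unit} : p ∈ fex φ ↔ ∃ i, p ∈ φ i := by
  rw [mem_fex]
  constructor
  · intro h
    obtain ⟨r, -, i, hi⟩ := h p le_rfl
    exact ⟨i, hi⟩
  · rintro ⟨i, hi⟩ q _
    exact ⟨q, le_rfl, i, hi⟩

theorem u_fimp {φ ψ : Set Unit} {p : Unit} : p ∈ fimp φ ψ ↔ (p ∈ φ → p ∈ ψ) := by
  rw [mem_fimp]
  constructor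
  · intro h h1
    obtain ⟨r, -, hr⟩ := h p le_rfl h1
    exact hr
  · intro h q _ h1
    exact ⟨q, le_rfl, h h1⟩

theorem u_meets {N : Set Unit} {p : Unit} : p ∈ meets N ↔ p ∈ N := by
  constructor
  · intro h
    obtain ⟨r, -, s, hs, -⟩ := h p le_rfl
    exact hs
  · intro h q _
    exact ⟨q, le_rfl, p, h, le_rfl⟩

theorem u_IsFun {X : Type v} {Y : Type w} {R : X → Y → Set Unit} {p : Unit} :
    p ∈ IsFun R ↔ ∃ f : X → Y, ∀ x y, p ∈ R x y ↔ f x = y := by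
  simp only [IsFun, u_fand, u_fall, u_fex, u_meets, u_fimp, u_fground]
  constructor
  · rintro ⟨h1, h2⟩
    choose f hf using h1
    refine ⟨f, fun x y => ⟨fun h => h2 x _ _ ⟨hf x, h⟩, ?_⟩⟩
    rintro rfl
    exact hf x
  · rintro ⟨f, hf⟩
    refine ⟨fun x => ⟨f x, (hf x _).2 rfl⟩, fun x y y' h => ?_⟩
    rw [hf, hf] at h
    exact h.1.symm.trans h.2

/-- the canonical names of functions, over the trivial notion of forcing -/
def nm {X Y : Type} (f : X → Y) : X → Y → Set Unit := fun x y => {_q | f x = y}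

theorem nm_isFun {X Y : Type} (f : X → Y) (p : Unit) : p ∈ IsFun (nm f) :=
  u_IsFun.2 ⟨f, fun _ _ => Iff.rfl⟩

theorem all_fun {Φ : (ℕ → ℕ → Set Unit) → Prop} {Ψ : (ℕ → ℕ) → Prop} {p : Unit}
    (h : ∀ (F : ℕ → ℕ → Set Unit) (f : ℕ → ℕ), (∀ x y, p ∈ F x y ↔ f x = y) → (Φ F ↔ Ψ f)) :
    (∀ F, p ∈ IsFun F → Φ F) ↔ ∀ f, Ψ f := by
  constructor
  · intro h1 f
    exact (h (nm f) f fun _ _ => Iff.rfl).1 (h1 _ (nm_isFun f p))
  · intro h1 F hF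
    obtain ⟨f, hf⟩ := u_IsFun.1 hF
    exact (h F f hf).2 (h1 f)

theorem ex_fun {Φ : (ℕ → ℕ → Set Unit) → Prop} {Ψ : (ℕ → ℕ) → Prop} {p : Unit}
    (h : ∀ (F : ℕ → ℕ → Set Unit) (f : ℕ → ℕ), (∀ x y, p ∈ F x y ↔ f x = y) → (Φ F ↔ Ψ f)) :
    (∃ F, p ∈ IsFun F ∧ Φ F) ↔ ∃ f, Ψ f := by
  constructor
  · rintro ⟨F, hF, h1⟩
    obtain ⟨f, hf⟩ := u_IsFun.1 hF
    exact ⟨f, (h F f hf).1 h1⟩
  · rintro ⟨f, h1⟩
    exact ⟨nm f, nm_isFun f p, (h (nm f) f fun _ _ => Iff.rfl).2 h1⟩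

theorem all_fam {T : Type} {Φ : (T → ℕ → ℕ → Set Unit) → Prop} {Ψ : (T → ℕ → ℕ) → Prop}
    {p : Unit} (h : ∀ (F : T → ℕ → ℕ → Set Unit) (f : T → ℕ → ℕ),
      (∀ t x y, p ∈ F t x y ↔ f t x = y) → (Φ F ↔ Ψ f)) :
    (∀ F, (∀ t, p ∈ IsFun (F t)) → Φ F) ↔ ∀ f, Ψ f := by
  constructor
  · intro h1 f
    exact (h (fun t => nm (f t)) f fun _ _ _ => Iff.rfl).1 (h1 _ fun t => nm_isFun (f t) p)
  · intro h1 F hF
    choose f hf using fun t => u_IsFun.1 (hF t)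
    exact (h F f hf).2 (h1 f)

theorem ex_fam {T : Type} {Φ : (T → ℕ → ℕ → Set Unit) → Prop} {Ψ : (T → ℕ → ℕ) → Prop}
    {p : Unit} (h : ∀ (F : T → ℕ → ℕ → Set Unit) (f : T → ℕ → ℕ),
      (∀ t x y, p ∈ F t x y ↔ f t x = y) → (Φ F ↔ Ψ f)) :
    (∃ F, (∀ t, p ∈ IsFun (F t)) ∧ Φ F) ↔ ∃ f, Ψ f := by
  constructor
  · rintro ⟨F, hF, h1⟩
    choose f hf using fun t => u_IsFun.1 (hF t)
    exact ⟨f, (h F f hf).1 h1⟩
  · rintro ⟨f, h1⟩
    exact ⟨fun t => nm (f t), fun t => nm_isFun (f t) p,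
      (h (fun t => nm (f t)) f fun _ _ _ => Iff.rfl).2 h1⟩

/-- the meaning of the sentence `PhiHolds` -/
theorem unit_meaning (F G : ℕ → ℕ) (T : Type) (p : Unit) :
    p ∈ PhiHolds Unit F G T ↔ PhiFor F G T := by
  have a1 : p ∈ SmallFamN Unit G T ↔ SmallFam G T := by
    simp only [SmallFamN, u_fand, u_fall, u_fex, u_meets, u_fimp, u_fground, u_fnot]
    refine ex_fam fun Y y hy => and_congr ?_ (all_fun fun X x hx => ?_)
    · simp only [hy]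
    · simp only [hy, hx]
  have a2 : p ∈ LargeFamN Unit F T ↔ LargeFam F T := by
    simp only [LargeFamN, u_fand, u_fall, u_fex, u_meets, u_fimp, u_fground]
    refine all_fam fun Y y hy => ?_
    simp only [hy]
    refine imp_congr Iff.rfl (ex_fun fun X x hx => ?_)
    simp only [hx]
  rw [PhiHolds, u_fand, a1, a2, PhiFor]

end

end Pool.Agent.H631.ED
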