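import Pool.Agent.H631.ED.Concrete
import Pool.Agent.H631.ED.Frame

/-!
# The cardinals, and the ZFC part
-/

set_option autoImplicit false

namespace Pool.Agent.H631.ED

open Classical Cardinal Filter

/-- `x` and `y` are eventually different, `x ≠* y`. -/
def EvDiff (x y : ℕ → ℕ) : Prop := ∀ᶠ n in atTop, x n ≠ y n

/-- The set `∏ h` of the functions `y` with `y n < h n` for all `n`. -/
def Below (h : ℕ → ℕ) : Set (ℕ → ℕ) := {y | ∀ n, y n < h n}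

/-- `𝔡(≠*, h)`: the least cardinality of a set `𝒢 ⊆ ∏ h` such that every function is eventually
different from some member of `𝒢`. -/
noncomputable def dNe (h : ℕ → ℕ) : Cardinal.{0} :=
  sInf {κ | ∃ 𝒢 : Set (ℕ → ℕ), 𝒢 ⊆ Below h ∧ (∀ x : ℕ → ℕ, ∃ y ∈ 𝒢, EvDiff x y) ∧ #𝒢 = κ}

/-- An order function: computable, non-decreasing, unbounded, with values at least `2`. -/
def IsOrder (h : ℕ → ℕ) : Prop :=
  Computable h ∧ Monotone h ∧ (∀ b, ∃ n, b ≤ h n) ∧ ∀ n, 2 ≤ h n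

/-- `G` grows faster than `F`: `G n / F n` tends to infinity. -/
def Faster (F G : ℕ → ℕ) : Prop := Tendsto (fun n => (G n : ℝ) / F n) atTop atTop

theorem dNe_le {G : ℕ → ℕ} {T : Type} (h : SmallFam G T) : dNe G ≤ #T := by
  obtain ⟨y, h1, h2⟩ := h
  have hmem : #(Set.range y) ∈ {κ | ∃ 𝒢 : Set (ℕ → ℕ), 𝒢 ⊆ Below G ∧
      (∀ x : ℕ → ℕ, ∃ y ∈ 𝒢, EvDiff x y) ∧ #𝒢 = κ} := by
    refine ⟨Set.range y, ?_, fun x => ?_, rfl⟩
    · rintro _ ⟨t, rfl⟩ n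
      obtain ⟨v, hv, hy⟩ := h1 t n
      show y t n < G n
      rw [hy]
      exact hv
    · obtain ⟨t, N, hN⟩ := h2 x
      refine ⟨y t, ⟨t, rfl⟩, eventually_atTop.2 ⟨N, fun n hn he => hN n hn ⟨_, he, rfl⟩⟩⟩
  exact (csInf_le' hmem).trans Cardinal.mk_range_le

theorem lt_dNe {F : ℕ → ℕ} (hF : ∀ n, 2 ≤ F n) {T : Type} (h : LargeFam F T) : #T < dNe F := by
  by_contra hcon
  rw [not_lt] at hcon
  have hne : {κ | ∃ 𝒢 : Set (ℕ → ℕ), 𝒢 ⊆ Below F ∧ (∀ x : ℕ → ℕ, ∃ y ∈ 𝒢, EvDiff x y) ∧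
      #𝒢 = κ}.Nonempty := by
    refine ⟨_, Below F, subset_rfl, fun x => ?_, rfl⟩
    refine ⟨fun n => if x n = 0 then 1 else 0, fun n => ?_, ?_⟩
    · have := hF n
      show (if x n = 0 then 1 else 0) < F n
      split_ifs <;> omega
    · refine Eventually.of_forall fun n => ?_
      show x n ≠ (if x n = 0 then 1 else 0)
      split_ifs with hx <;> omega
  obtain ⟨𝒢, hsub, hwit, hcard⟩ := csInf_mem hne
  have h1 : #𝒢 ≤ #T := by
    rw [hcard]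
    exact hcon
  obtain ⟨e⟩ := h1
  obtain ⟨y0, hy0, -⟩ := hwit fun _ => 0
  have : Nonempty 𝒢 := ⟨⟨y0, hy0⟩⟩
  let g : T → 𝒢 := Function.invFun e
  have hg : ∀ y : 𝒢, g (e y) = y := Function.leftInverse_invFun e.injective
  obtain ⟨x, hx⟩ := h (fun t => (g t : ℕ → ℕ)) fun t n => ⟨_, hsub (g t).2 n, rfl⟩
  obtain ⟨y, hy, hxy⟩ := hwit x
  obtain ⟨N, hN⟩ := eventually_atTop.1 hxy
  obtain ⟨n, hn, v, hv1, hv2⟩ := hx (e ⟨y, hy⟩) N
  rw [hg] at hv2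
  exact hN n hn (hv1.trans hv2.symm)

/-- a faster growing function has a smaller cardinal -/
theorem dNe_anti {G G' : ℕ → ℕ} (hG : ∀ n, 2 ≤ G n) (hG' : ∀ n, 2 ≤ G' n)
    (h : ∀ᶠ n in atTop, G n ≤ G' n) : dNe G' ≤ dNe G := by
  have hne : {κ | ∃ 𝒢 : Set (ℕ → ℕ), 𝒢 ⊆ Below G ∧ (∀ x : ℕ → ℕ, ∃ y ∈ 𝒢, EvDiff x y) ∧
      #𝒢 = κ}.Nonempty := by
    refine ⟨_, Below G, subset_rfl, fun x => ?_, rfl⟩
    refine ⟨fun n => if x n = 0 then 1 else 0, fun n => ?_, ?_⟩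
    · have := hG n
      show (if x n = 0 then 1 else 0) < G n
      split_ifs <;> omega
    · refine Eventually.of_forall fun n => ?_
      show x n ≠ (if x n = 0 then 1 else 0)
      split_ifs with hx <;> omega
  obtain ⟨𝒢, hsub, hwit, hcard⟩ := csInf_mem hne
  have hdef : dNe G = #𝒢 := hcard.symm
  obtain ⟨N, hN⟩ := eventually_atTop.1 h
  let f : (ℕ → ℕ) → (ℕ → ℕ) := fun y n => if n < N then 0 else y n
  have hmem : #(f '' 𝒢) ∈ {κ | ∃ 𝒢 : Set (ℕ → ℕ), 𝒢 ⊆ Below G' ∧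
      (∀ x : ℕ → ℕ, ∃ y ∈ 𝒢, EvDiff x y) ∧ #𝒢 = κ} := by
    refine ⟨f '' 𝒢, ?_, fun x => ?_, rfl⟩
    · rintro _ ⟨y, hy, rfl⟩ n
      show (if n < N then 0 else y n) < G' n
      split_ifs with hn
      · exact lt_of_lt_of_le (by norm_num) (hG' n)
      · exact lt_of_lt_of_le (hsub hy n) (hN n (not_lt.1 hn))
    · obtain ⟨y, hy, hxy⟩ := hwit x
      refine ⟨f y, ⟨y, hy, rfl⟩, ?_⟩
      filter_upwards [hxy, eventually_ge_atTop N] with n h1 h2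
      show x n ≠ (if n < N then 0 else y n)
      rw [if_neg (not_lt.2 h2)]
      exact h1
  rw [hdef]
  exact (csInf_le' hmem).trans Cardinal.mk_image_le

theorem dNe_lt {F G : ℕ → ℕ} (hF : ∀ n, 2 ≤ F n) {T : Type} (h : PhiFor F G T) :
    dNe G ≤ #T ∧ #T < dNe F ∧ dNe G < dNe F :=
  ⟨dNe_le h.1, lt_dNe hF h.2, (dNe_le h.1).trans_lt (lt_dNe hF h.2)⟩

theorem GG_order {F : ℕ → ℕ} (h : IsOrder F) : IsOrder (GG F) := by
  refine ⟨GG_computable h.1, GG_mono, fun b => ⟨b, ?_⟩, two_le_GG⟩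
  refine le_trans ?_ (le_GG h.2.2.2 h.2.1 b)
  exact Nat.le_mul_of_pos_right b (lt_of_lt_of_le (by norm_num) (h.2.2.2 b))

theorem GG_faster {F : ℕ → ℕ} (h : IsOrder F) : Faster F (GG F) := by
  refine tendsto_atTop_mono (fun n => ?_) tendsto_natCast_atTop_atTop
  have h1 : (0 : ℝ) < F n := by
    have := h.2.2.2 n
    exact_mod_cast (lt_of_lt_of_le (by norm_num) this : 0 < F n)
  rw [le_div_iff₀ h1]
  exact_mod_cast le_GG h.2.2.2 h.2.1 n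

end Pool.Agent.H631.ED
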